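import Mathlib
import Pool.Agent.H57.CP.Targets

/-!
# MP_397744_co, module SYG: symmetries form a group which acts on flags
-/

open Set

namespace Pool.Agent.H7.CP

open Pool.Agent.H57.CP

theorem im_mul (g h : Equiv.Perm H3) (e : Set H3) : (g * h : Equiv.Perm H3) '' e = g '' (h '' e) := by
  rw [Set.image_image]
  rfl

theorem im2_mul (g h : Equiv.Perm H3) (f : Set (Set H3)) :
    (Set.image (g * h : Equiv.Perm H3)) '' f = (Set.image g) '' ((Set.image h) '' f) := by
  rw [Set.image_image]
  exact Set.image_congr fun e _ => im_mul g h e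

theorem im_one (e : Set H3) : (1 : Equiv.Perm H3) '' e = e := by
  simp

theorem im2_one (f : Set (Set H3)) : (Set.image (1 : Equiv.Perm H3)) '' f = f := by
  have : (Set.image (1 : Equiv.Perm H3) : Set H3 → Set H3) = id := by
    funext e
    exact im_one e
  rw [this, Set.image_id]

theorem act_mul (g h : Equiv.Perm H3) (Φ : Fg) : act (g * h) Φ = act g (act h Φ) := by
  unfold act
  refine Prod.ext ?_ (Prod.ext ?_ ?_)
  · rfl
  · exact im_mul g h _
  · exact im2_mul g h _

theorem act_one (Φ : Fg) : act 1 Φ = Φ := by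
  unfold act
  refine Prod.ext ?_ (Prod.ext ?_ ?_)
  · rfl
  · exact im_one _
  · exact im2_one _

theorem app_inv (g : Equiv.Perm H3) (x : H3) : g (g⁻¹ x) = x := by
  have : (g * g⁻¹) x = x := by rw [mul_inv_cancel]; rfl
  exact this

theorem inv_app (g : Equiv.Perm H3) (x : H3) : g⁻¹ (g x) = x := by
  have : (g⁻¹ * g) x = x := by rw [inv_mul_cancel]; rfl
  exact this

theorem act_inv_act (g : Equiv.Perm H3) (Φ : Fg) : act g⁻¹ (act g Φ) = Φ := by
  rw [← act_mul, inv_mul_cancel, act_one]

theorem act_act_inv (g : Equiv.Perm H3) (Φ : Fg) : act g (act g⁻¹ Φ) = Φ := by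
  rw [← act_mul, mul_inv_cancel, act_one]

theorem sy_one (K : Geo) : Sy K 1 where
  iso := fun x y => rfl
  v := fun x => Iff.rfl
  e := fun e => by rw [im_one]
  f := fun f => by rw [im2_one]

theorem sy_mul {K : Geo} {g h : Equiv.Perm H3} (hg : Sy K g) (hh : Sy K h) : Sy K (g * h) where
  iso := fun x y => by
    rw [Equiv.Perm.mul_apply, Equiv.Perm.mul_apply, hg.iso, hh.iso]
  v := fun x => by rw [Equiv.Perm.mul_apply, hg.v, hh.v]
  e := fun e => by rw [im_mul, hg.e, hh.e]
  f := fun f => by rw [im2_mul, hg.f, hh.f]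

theorem sy_inv {K : Geo} {g : Equiv.Perm H3} (hg : Sy K g) : Sy K g⁻¹ where
  iso := fun x y => by
    have := hg.iso (g⁻¹ x) (g⁻¹ y)
    rw [app_inv, app_inv] at this
    exact this.symm
  v := fun x => by
    have := hg.v (g⁻¹ x)
    rw [app_inv] at this
    exact this.symm
  e := fun e => by
    have := hg.e ((g⁻¹ : Equiv.Perm H3) '' e)
    rw [← im_mul, mul_inv_cancel, im_one] at this
    exact this.symm
  f := fun f => by
    have := hg.f ((Set.image (g⁻¹ : Equiv.Perm H3)) '' f)
    rw [← im2_mul, mul_inv_cancel, im2_one] at this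
    exact this.symm

theorem syg : T_SYG := fun K =>
  ⟨sy_one K, fun _ _ hg hh => sy_mul hg hh, fun _ hg => sy_inv hg, act_mul, act_one⟩

end Pool.Agent.H7.CP
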