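import Mathlib
import Pool.Agent.H7.CP.SYG

/-!
# MP_397744_co, modules NCA, NCB, NCC, NCD: the two rotations of a chiral polyhedron
-/

open Set

namespace Pool.Agent.H7.CP

open Pool.Agent.H57.CP

theorem adj0 {K : Geo} {Φ Ψ : Fg} (h : A0 K Φ Ψ) : Adjacent Φ Ψ := Or.inl ⟨h.2.2.1, h.2.2.2.1, h.2.2.2.2⟩
theorem adj1 {K : Geo} {Φ Ψ : Fg} (h : A1 K Φ Ψ) : Adjacent Φ Ψ :=
  Or.inr (Or.inl ⟨h.2.2.1, h.2.2.2.1, h.2.2.2.2⟩)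
theorem adj2 {K : Geo} {Φ Ψ : Fg} (h : A2 K Φ Ψ) : Adjacent Φ Ψ :=
  Or.inr (Or.inr ⟨h.2.2.1, h.2.2.2.1, h.2.2.2.2⟩)

theorem a0symm {K : Geo} {Φ Ψ : Fg} (h : A0 K Φ Ψ) : A0 K Ψ Φ :=
  ⟨h.2.1, h.1, h.2.2.1.symm, h.2.2.2.1.symm, h.2.2.2.2.symm⟩
theorem a1symm {K : Geo} {Φ Ψ : Fg} (h : A1 K Φ Ψ) : A1 K Ψ Φ :=
  ⟨h.2.1, h.1, h.2.2.1.symm, h.2.2.2.1.symm, h.2.2.2.2.symm⟩
theorem a2symm {K : Geo} {Φ Ψ : Fg} (h : A2 K Φ Ψ) : A2 K Ψ Φ :=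
  ⟨h.2.1, h.1, h.2.2.1.symm, h.2.2.2.1.symm, h.2.2.2.2.symm⟩

theorem u0 (h : T_FLA) {K : Geo} (hK : IsGeo K) {Φ A B : Fg} (hA : A0 K Φ A) (hB : A0 K Φ B) : A = B :=
  (h K hK Φ hA.1).1.unique hA hB
theorem u1 (h : T_FLA) {K : Geo} (hK : IsGeo K) {Φ A B : Fg} (hA : A1 K Φ A) (hB : A1 K Φ B) : A = B :=
  (h K hK Φ hA.1).2.1.unique hA hB
theorem u2 (h : T_FLA) {K : Geo} (hK : IsGeo K) {Φ A B : Fg} (hA : A2 K Φ A) (hB : A2 K Φ B) : A = B :=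
  (h K hK Φ hA.1).2.2.unique hA hB

theorem nca (h : T_FLA) : T_NCA := by
  intro K hK hC
  obtain ⟨Φ, _, hΦ, -, -⟩ := hC.two
  obtain ⟨Φ0, a0, -⟩ := (h K hK Φ hΦ).1
  obtain ⟨Φ1, a1, -⟩ := (h K hK Φ hΦ).2.1
  obtain ⟨Φ2, a2, -⟩ := (h K hK Φ hΦ).2.2
  obtain ⟨Φ02, a02, -⟩ := (h K hK Φ0 a0.2.1).2.2
  obtain ⟨Φ12, a12, -⟩ := (h K hK Φ1 a1.2.1).2.2
  have hS : Eqv K Φ Φ12 := by
    rcases hC.le_two Φ Φ1 Φ12 hΦ a1.2.1 a12.2.1 with h' | h' | h'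
    · exact absurd h' (hC.adj _ _ hΦ a1.2.1 (adj1 a1))
    · exact absurd h' (hC.adj _ _ a1.2.1 a12.2.1 (adj2 a12))
    · exact h'
  have hT : Eqv K Φ Φ02 := by
    rcases hC.le_two Φ Φ0 Φ02 hΦ a0.2.1 a02.2.1 with h' | h' | h'
    · exact absurd h' (hC.adj _ _ hΦ a0.2.1 (adj0 a0))
    · exact absurd h' (hC.adj _ _ a0.2.1 a02.2.1 (adj2 a02))
    · exact h'
  obtain ⟨S, sS, eS⟩ := hS
  obtain ⟨T, sT, eT⟩ := hT
  exact ⟨Φ, Φ0, Φ1, Φ2, Φ02, Φ12, S, T, ⟨a0, a1, a2, a02, a12, sS, sT, eS, eT⟩⟩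

theorem ncb (h1 : T_FLA) (h2 : T_FLB) : T_NCB := by
  intro K Φ Φ0 Φ1 Φ2 Φ02 Φ12 S T hK hR
  obtain ⟨a0, a1, a2, a02, a12, sS, sT, eS, eT⟩ := hR
  have e1 : act T Φ2 = Φ0 := by
    have h := (h2 K T sT Φ Φ2).2.2.2 a2
    rw [eT] at h
    exact u2 h1 hK h (a2symm a02)
  have e2 : act S Φ2 = Φ1 := by
    have h := (h2 K S sS Φ Φ2).2.2.2 a2
    rw [eS] at h
    exact u2 h1 hK h (a2symm a12)
  have e3 : A0 K Φ2 Φ02 := by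
    -- the flag `(Φ0.1, e, Φ2.face)` is the `A2`-neighbour of `Φ0`
    have hfl : Fl K (Φ0.1, Φ2.2.1, Φ2.2.2) := by
      refine ⟨?_, a2.2.1.2.1, a2.2.1.2.2⟩
      show Φ0.1 ∈ Φ2.2.1
      rw [← a2.2.2.2.1, a0.2.2.2.1]
      exact a0.2.1.1
    have hA : A2 K Φ0 (Φ0.1, Φ2.2.1, Φ2.2.2) := by
      refine ⟨a0.2.1, hfl, rfl, ?_, ?_⟩
      · show Φ0.2.1 = Φ2.2.1
        rw [← a0.2.2.2.1, a2.2.2.2.1]
      · show Φ0.2.2 ≠ Φ2.2.2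
        rw [← a0.2.2.2.2]
        exact a2.2.2.2.2
    have he : Φ02 = (Φ0.1, Φ2.2.1, Φ2.2.2) := u2 h1 hK a02 hA
    rw [he]
    refine ⟨a2.2.1, hfl, ?_, rfl, rfl⟩
    show Φ2.1 ≠ Φ0.1
    rw [← a2.2.2.1]
    exact a0.2.2.1
  have e4 : A1 K (act S⁻¹ Φ) Φ2 := by
    have h := (h2 K S⁻¹ (sy_inv sS) Φ Φ1).2.2.1 a1
    rw [← e2, act_inv_act] at h
    exact h
  have e5 : A1 K (act (T * S⁻¹) Φ) Φ0 := by
    have h := (h2 K T sT _ _).2.2.1 e4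
    rw [e1, ← act_mul] at h
    exact h
  exact ⟨e1, e2, e3, e4, e5⟩

theorem gr_sy {K : Geo} {S T g : Equiv.Perm H3} (hS : Sy K S) (hT : Sy K T) (hg : g ∈ Gr S T) : Sy K g := by
  unfold Gr at hg
  induction hg using Subgroup.closure_induction with
  | mem x hx =>
    rcases hx with rfl | hx
    · exact hS
    · rw [Set.mem_singleton_iff] at hx
      rw [hx]
      exact hT
  | one => exact sy_one K
  | mul x y _ _ hx hy => exact sy_mul hx hy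
  | inv x _ hx => exact sy_inv hx

theorem S_mem (S T : Equiv.Perm H3) : S ∈ Gr S T := Subgroup.subset_closure (by simp)
theorem T_mem (S T : Equiv.Perm H3) : T ∈ Gr S T := Subgroup.subset_closure (by simp)

theorem ncc (h1 : T_FLA) (h2 : T_FLB) (h3 : T_FLC) : T_NCC := by
  intro K Φ Φ0 Φ1 Φ2 Φ02 Φ12 S T hK hR Ψ hΨ
  obtain ⟨e1, e2, e3, e4, e5⟩ := ncb h1 h2 K Φ Φ0 Φ1 Φ2 Φ02 Φ12 S T hK hR
  obtain ⟨a0, a1, a2, a02, a12, sS, sT, eS, eT⟩ := hR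
  have hpath := h3 K hK Φ Ψ a0.1 hΨ
  clear hΨ
  induction hpath with
  | refl => exact ⟨1, (Gr S T).one_mem, Or.inl (act_one Φ).symm⟩
  | tail hpq hstep ih =>
    rename_i Θ Ψ
    obtain ⟨g, hg, hor⟩ := ih
    have sg : Sy K g := gr_sy sS sT hg
    rcases hor with rfl | rfl
    · rcases hstep with hs | hs | hs
      · -- A0
        have h := (h2 K g sg Φ Φ0).2.1 a0
        refine ⟨g * T, (Gr S T).mul_mem hg (T_mem S T), Or.inr ?_⟩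
        rw [act_mul, e1]
        exact u0 h1 hK hs h
      · have h := (h2 K g sg Φ Φ1).2.2.1 a1
        refine ⟨g * S, (Gr S T).mul_mem hg (S_mem S T), Or.inr ?_⟩
        rw [act_mul, e2]
        exact u1 h1 hK hs h
      · have h := (h2 K g sg Φ Φ2).2.2.2 a2
        exact ⟨g, hg, Or.inr (u2 h1 hK hs h)⟩
    · rcases hstep with hs | hs | hs
      · have h := (h2 K g sg Φ2 Φ02).2.1 e3
        refine ⟨g * T, (Gr S T).mul_mem hg (T_mem S T), Or.inl ?_⟩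
        rw [act_mul, eT]
        exact u0 h1 hK hs h
      · have h := (h2 K g sg Φ2 (act S⁻¹ Φ)).2.2.1 (a1symm e4)
        refine ⟨g * S⁻¹, (Gr S T).mul_mem hg ((Gr S T).inv_mem (S_mem S T)), Or.inl ?_⟩
        rw [act_mul]
        exact u1 h1 hK hs h
      · have h := (h2 K g sg Φ2 Φ).2.2.2 (a2symm a2)
        exact ⟨g, hg, Or.inl (u2 h1 hK hs h)⟩

end Pool.Agent.H7.CP
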