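import Mathlib
import Pool.Agent.H7.CP.NCA

/-!
# MP_397744_co, module NCD: the base face is an orbit
-/

open Set

namespace Pool.Agent.H7.CP

open Pool.Agent.H57.CP

/-- stabilizer of a set of sets -/
def StF (f : Set (Set H3)) : Subgroup (Equiv.Perm H3) where
  carrier := {g | (Set.image g) '' f = f}
  one_mem' := im2_one f
  mul_mem' := by
    intro a b ha hb
    simp only [Set.mem_ofPred_eq] at ha hb ⊢
    rw [im2_mul, hb, ha]
  inv_mem' := by
    intro a ha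
    simp only [Set.mem_ofPred_eq] at ha ⊢
    conv_lhs => rw [← ha]
    rw [← im2_mul, inv_mul_cancel, im2_one]

theorem mem_StF {f : Set (Set H3)} {g : Equiv.Perm H3} : g ∈ StF f ↔ (Set.image g) '' f = f := Iff.rfl

theorem stf_mem {f : Set (Set H3)} {g : Equiv.Perm H3} (hg : g ∈ StF f) {e : Set H3} (he : e ∈ f) : g '' e ∈ f := by
  have h := mem_StF.1 hg
  rw [← h]
  exact Set.mem_image_of_mem _ he

theorem edge_pair {K : Geo} (hK : IsGeo K) {e : Set H3} (he : e ∈ K.E) {v v' : H3} (hv : v ∈ e) (hv' : v' ∈ e)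
    (hne : v ≠ v') : e = {v, v'} := by
  obtain ⟨x, -, y, -, hxy, rfl⟩ := hK.ed e he
  rcases hv with rfl | hv
  · rcases hv' with rfl | hv'
    · exact absurd rfl hne
    · rw [Set.mem_singleton_iff] at hv'
      rw [hv']
  · rw [Set.mem_singleton_iff] at hv
    rcases hv' with rfl | hv'
    · rw [hv, Set.pair_comm]
    · rw [Set.mem_singleton_iff] at hv'
      exact absurd (hv.trans hv'.symm) hne

theorem two_set {α : Type} {s : Set α} (hs : s.ncard = 2) {a b : α} (ha : a ∈ s) (hb : b ∈ s) (hab : a ≠ b) {c : α}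
    (hc : c ∈ s) : c = a ∨ c = b := by
  obtain ⟨x, y, hxy, rfl⟩ := Set.ncard_eq_two.1 hs
  rcases ha with rfl | ha
  · rcases hb with rfl | hb
    · exact absurd rfl hab
    · rw [Set.mem_singleton_iff] at hb
      rw [hb]
      rcases hc with rfl | hc
      · exact Or.inl rfl
      · exact Or.inr hc
  · rw [Set.mem_singleton_iff] at ha
    rcases hb with rfl | hb
    · rw [ha]
      rcases hc with rfl | hc
      · exact Or.inr rfl
      · exact Or.inl hc
    · rw [Set.mem_singleton_iff] at hb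
      exact absurd (ha.trans hb.symm) hab

theorem inv_im {g : Equiv.Perm H3} (e : Set H3) : (g⁻¹ : Equiv.Perm H3) '' (g '' e) = e := by
  rw [← im_mul, inv_mul_cancel, im_one]

theorem im_inv {g : Equiv.Perm H3} (e : Set H3) : g '' ((g⁻¹ : Equiv.Perm H3) '' e) = e := by
  rw [← im_mul, mul_inv_cancel, im_one]

/-- a face stabilized by `R`, with `R v = v'` and `R '' e ≠ e`, is the orbit of its edge `e = {v, v'}` -/
theorem face_orbit {K : Geo} (hK : IsGeo K) {f : Set (Set H3)} (hf : f ∈ K.F) {v v' : H3}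
    (he : ({v, v'} : Set H3) ∈ f) {R : Equiv.Perm H3} (hR : R ∈ StF f) (hv : R v = v')
    (hne : R '' ({v, v'} : Set H3) ≠ {v, v'}) : f = {e | ∃ k : ℤ, e = (R ^ k : Equiv.Perm H3) '' {v, v'}} := by
  have hRk : ∀ k : ℤ, R ^ k ∈ StF f := fun k => (StF f).zpow_mem hR k
  have hRe : R '' ({v, v'} : Set H3) ∈ f := stf_mem hR he
  have hRv' : v' ∈ R '' ({v, v'} : Set H3) := ⟨v, Or.inl rfl, hv⟩
  have key : ∀ b ∈ f, ∀ j : ℤ, (R ^ j) v' ∈ b → ∃ k : ℤ, b = (R ^ k : Equiv.Perm H3) '' {v, v'} := by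
    intro b hb j hj
    have h1 : ((R ^ j)⁻¹ : Equiv.Perm H3) '' b ∈ f := stf_mem ((StF f).inv_mem (hRk j)) hb
    have h2 : v' ∈ ((R ^ j)⁻¹ : Equiv.Perm H3) '' b := ⟨_, hj, inv_app _ _⟩
    rcases two_set (hK.vf f hf _ he v' (Or.inr rfl)) (a := {v, v'}) (b := R '' {v, v'})
      ⟨he, Or.inr rfl⟩ ⟨hRe, hRv'⟩ hne.symm ⟨h1, h2⟩ with h | h
    · refine ⟨j, ?_⟩
      rw [← h, im_inv]
    · refine ⟨j + 1, ?_⟩
      rw [zpow_add, zpow_one, im_mul, ← h, im_inv]
  apply Set.Subset.antisymm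
  · intro e' he'
    have hp := hK.cf f hf _ he e' he'
    clear he'
    induction hp with
    | refl => exact ⟨0, by rw [zpow_zero, im_one]⟩
    | tail hpq hstep ih =>
      rename_i a b
      obtain ⟨k, rfl⟩ := ih
      obtain ⟨hb, x, ⟨y, hy, rfl⟩, hxb⟩ := hstep
      rcases hy with rfl | hy
      · refine key b hb (k - 1) ?_
        rw [← hv, ← Equiv.Perm.mul_apply, ← zpow_add_one, sub_add_cancel]
        exact hxb
      · rw [Set.mem_singleton_iff] at hy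
        subst hy
        exact key b hb k hxb
  · rintro e' ⟨k, rfl⟩
    exact stf_mem (hRk k) he

theorem ncd (h1 : T_FLA) (h2 : T_FLB) : T_NCD := by
  intro K Φ Φ0 Φ1 Φ2 Φ02 Φ12 S T hK hR
  obtain ⟨e1, e2, e3, e4, e5⟩ := ncb h1 h2 K Φ Φ0 Φ1 Φ2 Φ02 Φ12 S T hK hR
  obtain ⟨a0, a1, a2, a02, a12, sS, sT, eS, eT⟩ := hR
  obtain ⟨v, e, f⟩ := Φ
  have hfl : v ∈ e ∧ e ∈ f ∧ f ∈ K.F := a0.1
  have heE : e ∈ K.E := (hK.fs f hfl.2.2).1 hfl.2.1
  have hne : v ≠ Φ0.1 := a0.2.2.1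
  have h0e : e = Φ0.2.1 := a0.2.2.2.1
  have h0f : f = Φ0.2.2 := a0.2.2.2.2
  have hv'e : Φ0.1 ∈ e := by
    rw [h0e]
    exact a0.2.1.1
  have hpair : e = {v, Φ0.1} := edge_pair hK heE hfl.1 hv'e hne
  have hSv : S v = v := by
    have h : (act S (v, e, f)).1 = Φ12.1 := by rw [eS]
    have h' : S v = Φ12.1 := h
    rw [h', ← a12.2.2.1, ← a1.2.2.1]
  have hTv : T v = Φ0.1 := by
    have h : (act T (v, e, f)).1 = Φ02.1 := by rw [eT]
    have h' : T v = Φ02.1 := h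
    rw [h', ← a02.2.2.1]
  have hTe : T '' e = e := by
    have h : (act T (v, e, f)).2.1 = Φ02.2.1 := by rw [eT]
    have h' : T '' e = Φ02.2.1 := h
    rw [h', ← a02.2.2.2.1, ← h0e]
  have hTv' : T Φ0.1 = v := by
    have h : T Φ0.1 ∈ e := by
      rw [← hTe]
      exact Set.mem_image_of_mem _ hv'e
    rw [hpair] at h
    rcases h with h | h
    · exact h
    · rw [Set.mem_singleton_iff] at h
      exact absurd (T.injective (hTv.trans h.symm)) hne
  have hRv : (T * S⁻¹) v = Φ0.1 := e5.2.2.1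
  have hRe : (T * S⁻¹ : Equiv.Perm H3) '' e ≠ e := by
    rw [h0e]
    have : (T * S⁻¹ : Equiv.Perm H3) '' e ≠ Φ0.2.1 := e5.2.2.2.1
    rw [h0e] at this
    exact this
  have hRf : (T * S⁻¹ : Equiv.Perm H3) ∈ StF f := by
    rw [mem_StF]
    have : (Set.image (T * S⁻¹ : Equiv.Perm H3)) '' f = Φ0.2.2 := e5.2.2.2.2
    rw [this, ← h0f]
  have hf0 : f = f0 v Φ0.1 S T := by
    rw [hpair] at hRe
    exact face_orbit hK hfl.2.2 (hpair ▸ hfl.2.1) hRf hRv hRe
  refine ⟨v, Φ0.1, hne, ?_, rfl, ?_, hSv, hTv, hTv'⟩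
  · rw [← hf0, ← hpair]
  · have h2f : Φ2.2.2 = (Set.image T) '' f := by
      rw [e3.2.2.2.2, ← eT]
      rfl
    rw [← hf0, ← hpair, ← h2f]
    refine Prod.ext ?_ (Prod.ext ?_ rfl)
    · exact a2.2.2.1.symm
    · exact a2.2.2.2.1.symm

end Pool.Agent.H7.CP
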