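import Pool.Agent.H7.CP.Targets
import Pool.Agent.H90.HDA.WZ

/-!
# MP_e37c09_lc: reflection of sequences in HOD by normal measures of HOD
-/

open Ordinal Cardinal Order Set
open scoped ZFSet

universe u

namespace HD

/-- `A ν` is the class of `A` in the ultrapower of HOD by a normal measure of HOD on `ν` -/
def RPt (A : Ordinal.{u} → Set Ordinal.{u} → Prop) (ν : Ordinal.{u}) : Prop :=
  ∃ U, NMe ν U ∧ ∀ Y : Set Ordinal.{u}, DS Y → (A ν Y ↔ os ν {ξ | A ξ Y} ∈ U)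

/-- LCR. The theorem for one atom. -/
def T_LCR : Prop := ∀ en : Ordinal.{u} → ZFSet.{u}, EN en → ∀ (D K M : Cardinal.{u})
  (lam : Ordinal.{u}) Q f (W : Ultrafilter Ordinal.{u})
  (A : Ordinal.{u} → Set Ordinal.{u} → Prop), GoodN D → GoodW D → K.IsRegular →
  succ D < K → EQ K lam Q f → Few D.ord {τ | Exc K lam τ} → WN D K.ord W → M.IsRegular →
  ℵ₀ < M → M < D → HR A → ∀ c, Atom en M.ord K.ord c →
  ∃ (T : Set Ordinal.{u}) (S : Ordinal.{u} → Set Ordinal.{u}),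
    ¬ Pos om K.ord {γ | γ ∈ T ∧ ∀ i < (succ D).ord, γ ∉ S i} ∧
    ∃ C, Clb K.ord C ∧ ∀ ν ∈ C, ν < K.ord → NE K lam ν → ν ∈ E en c → Cf M.ord ν →
      ¬ Pos om ν {γ | γ ∉ T} ∧ ((∃ i < (succ D).ord, Pos om ν (S i)) → RPt A ν)

/-- RFL. Reflection at almost all points. -/
def T_RFL : Prop := ∀ (D K : Cardinal.{u}) (W : Ultrafilter Ordinal.{u}), GoodN D → GoodW D →
  K.IsRegular → 2 ^ (succ D) < K → Few D.ord (PC K) → WN D K.ord W →
  ∀ A : Ordinal.{u} → Set Ordinal.{u} → Prop, HR A → {ν | RPt A ν} ∈ W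

end HD
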