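import Pool.Agent.H7.CP.Stmt
import Pool.Agent.H7.CP.RDefs
import Pool.Agent.H3.CP.CD3
import Pool.Agent.H3.CP.CD2

/-!
# MP_e37c09_lc: from relations to sets
-/

open Ordinal Cardinal Order Set
open scoped ZFSet

universe u

namespace Pool.Agent.H7.CP.RZ

open _root_.HD Pool.Agent.H3.HD.DM Pool.Agent.H3.CP.CD3 Pool.Agent.H3.CP.CD2

/-- the relation given by a set `A` -/
def RA (A : ZFSet.{u}) (ν : Ordinal.{u}) (Y : Set Ordinal.{u}) : Prop :=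
  ZFSet.pair ν.toZFSet (os ν Y) ∈ A

theorem hr {A : ZFSet.{u}} (hA : OD A) : HR (RA A) := by
  refine ⟨fun ν X Y hXY => ?_, fun Y hY i => ?_⟩
  · unfold RA
    rw [os_congr hXY]
  · refine (DO.setArg (R := fun (s : ZFSet.{u}) (v : ℕ → ZFSet.{u}) => ∃ y : ZFSet.{u}, y = A ∧
      ZFSet.pair (v i) s ∈ y) ?_ (X := Y) hY i).congr fun w => ?_
    · exact DZ.ex (DZ.and (hA.eqv 0) (loc_pmem (i + 2) 1 0).dz)
    · show RA A (w i) {a | Y a w} ↔ _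
      unfold RA
      constructor
      · intro hh
        exact ⟨_, rfl, hh⟩
      · rintro ⟨y, rfl, hh⟩
        exact hh

theorem ref_of {A : ZFSet.{u}} {ν : Ordinal.{u}} (h : RPt (RA A) ν) : RefPt A ν := by
  obtain ⟨U, hU, h1⟩ := h
  refine ⟨U, (All.hmi _ _).2 hU, fun x hx hxν => ?_⟩
  have h2 : ∀ ξ ≤ ν, os ξ {a | a.toZFSet ∈ x} = x ∩ ξ.toZFSet := by
    intro ξ hξ
    ext z
    rw [mem_os, ZFSet.mem_inter]
    constructor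
    · rintro ⟨a, ha, h3, rfl⟩
      exact ⟨h3, toZFSet_mem_toZFSet_iff.2 ha⟩
    · rintro ⟨h3, h4⟩
      obtain ⟨a, ha, rfl⟩ := mem_toZFSet_iff.1 h4
      exact ⟨a, ha, h3, rfl⟩
  have h3 : x ∩ ν.toZFSet = x := by
    ext z
    rw [ZFSet.mem_inter]
    exact ⟨fun h => h.1, fun h => ⟨h, hxν h⟩⟩
  have h4 := h1 {a | a.toZFSet ∈ x} hx.od.ds
  unfold RA at h4
  rw [h2 ν le_rfl, h3] at h4
  rw [h4]
  have h5 : os ν {ξ | ZFSet.pair ξ.toZFSet (os ξ {a | a.toZFSet ∈ x}) ∈ A} =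
      (ν.toZFSet).sep (fun b => ZFSet.pair b (x ∩ b) ∈ A) := by
    ext z
    rw [mem_os, ZFSet.mem_sep]
    constructor
    · rintro ⟨a, ha, h6, rfl⟩
      have h6' : ZFSet.pair a.toZFSet (os a {a | a.toZFSet ∈ x}) ∈ A := h6
      rw [h2 a ha.le] at h6'
      exact ⟨toZFSet_mem_toZFSet_iff.2 ha, h6'⟩
    · rintro ⟨h6, h7⟩
      obtain ⟨a, ha, rfl⟩ := mem_toZFSet_iff.1 h6
      refine ⟨a, ha, ?_, rfl⟩
      show ZFSet.pair a.toZFSet (os a {a | a.toZFSet ∈ x}) ∈ A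
      rw [h2 a ha.le]
      exact h7
  rw [h5]

/-- `RefPt` in terms of sets -/
def RFZ (A k : ZFSet.{u}) : Prop :=
  ∃ U, HMZ k U ∧ ∀ x, HOD x → x ⊆ k → (ZFSet.pair k x ∈ A ↔ ∃ z ∈ U, ∀ b, b ∈ z ↔ b ∈ k ∧
    ∃ c, ZFSet.pair b c ∈ A ∧ ∀ d, d ∈ c ↔ d ∈ x ∧ d ∈ b)

theorem ref_iff {ν : Ordinal.{u}} {A : ZFSet.{u}} : RefPt A ν ↔ RFZ A ν.toZFSet := by
  unfold RefPt RFZ
  refine exists_congr fun U => and_congr hmeas_iff (forall_congr' fun x => imp_congr_right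
    fun _ => imp_congr_right fun _ => iff_congr Iff.rfl ?_)
  rw [sep_mem]
  exact exists_congr fun z => and_congr_right fun _ => forall_congr' fun b =>
    iff_congr Iff.rfl (and_congr_right fun _ => pair_inter)

theorem ds_ref {A : ZFSet.{u}} (hA : OD A) : DS {ν : Ordinal.{u} | RefPt A ν} := by
  refine ⟨fun v => ∃ y : ZFSet.{u}, y = A ∧ RFZ y (v 0), ?_, ?_⟩
  · refine DZ.ex (DZ.and (hA.eqv 0) (DZ.ex (DZ.and (dz_HMZ 2 0) (DZ.all (DZ.imp (dz_hod 0)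
      (DZ.imp (Loc.sub 0 3).dz (DZ.iff (loc_pmem 3 0 2).dz (DZ.exMem 1 (DZ.all (DZ.iff
        (DZ.mem 0 1) (DZ.and (DZ.mem 0 5) ?_)))))))))))
    exact DZ.ex (DZ.and (loc_pmem 1 0 5).dz (DZ.all (DZ.iff (DZ.mem 0 1)
      (DZ.and (DZ.mem 0 4) (DZ.mem 0 2)))))
  · intro w
    constructor
    · intro h
      exact ⟨A, rfl, ref_iff.1 h⟩
    · rintro ⟨y, rfl, h⟩
      exact ref_iff.2 h

end Pool.Agent.H7.CP.RZ
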