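import Pool.Agent.H7.CP.LCR
import Pool.Agent.H7.CP.RFL
import Pool.Agent.H7.CP.RZ
import Pool.Agent.H69.CP.CD1
import Pool.Agent.H3.CP.CD2
import Pool.Agent.H3.CP.CD3
import Pool.Agent.H48.CP.CD4
import Pool.Agent.H48.CP.NRM
import Pool.Agent.H77.CP.CHR
import Pool.Agent.H39.CP.HLN
import Pool.Agent.H54.CP.HLX
import Pool.Agent.H72.CP.HUQ
import Pool.Agent.H1.CP.HLD
import Pool.Agent.H72.CP.HPO
import Pool.Agent.H68.CP.HNO
import Pool.Agent.H94.CP.HWH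
import Pool.Agent.H40.CP.HWN
import Pool.Agent.H18.CP.CPR
import Pool.Agent.H56.CP.PGN
import Pool.Agent.H34.CP.MAT
import Pool.Agent.H35.CP.LOS
import Pool.Agent.H64.CP.CMR

/-!
# Assembly of the board `cap_modules` (MP_e37c09_lc): reflection and capturing by normal measures
-/

open Ordinal Cardinal Order Set
open scoped ZFSet

universe u

namespace HD

namespace All

theorem cd1 : T_CD1.{u} := Pool.Agent.H69.CP.CD1.X
theorem cd2 : T_CD2.{u} := Pool.Agent.H3.CP.CD2.X cd1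
theorem cd3 : T_CD3.{u} := Pool.Agent.H3.CP.CD3.X
theorem cd4 : T_CD4.{u} := Pool.Agent.H48.CP.CD4.X
theorem nrm : T_NRM.{u} := Pool.Agent.H48.CP.NRM.X
theorem chr : T_CHR.{u} := Pool.Agent.H77.CP.CHR.X nrm
theorem hln : T_HLN.{u} := Pool.Agent.H39.CP.HLN.X
theorem hlx : T_HLX.{u} := Pool.Agent.H54.CP.HLX.X
theorem hlm : T_HLM.{u} := Pool.Agent.H7.CP.LCC.hlm hln hlx
theorem huq : T_HUQ.{u} := Pool.Agent.H72.CP.HUQ.X
theorem hld : T_HLD.{u} := Pool.Agent.H1.CP.HLD.X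
theorem hpo : T_HPO.{u} := Pool.Agent.H72.CP.HPO.X hld huq
theorem hno : T_HNO.{u} := Pool.Agent.H68.CP.HNO.X hld huq
theorem hwh : T_HWH.{u} := Pool.Agent.H94.CP.HWH.X hld huq
theorem hwn : T_HWN.{u} := Pool.Agent.H40.CP.HWN.X hwh
theorem cpr : T_CPR.{u} := Pool.Agent.H18.CP.CPR.X
theorem pgn : T_PGN.{u} := Pool.Agent.H56.CP.PGN.X
theorem mat : T_MAT.{u} := Pool.Agent.H34.CP.MAT.X
theorem lsm : T_LSM.{u} := Pool.Agent.H35.CP.LOS.X
theorem cmr : T_CMR.{u} := Pool.Agent.H64.CP.CMR.X lsm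
theorem lcr : T_LCR.{u} := Pool.Agent.H7.CP.LCR.X cd4 chr hlm hpo hno hwn
theorem rfl' : T_RFL.{u} := Pool.Agent.H7.CP.RFL.X mat lcr pgn
theorem cap : T_CAP.{u} := Pool.Agent.H7.CP.RFL.cap cd2 cpr rfl'

end All

end HD
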