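import Pool.Agent.H7.CP.Fin4
import Pool.Agent.H85.CP.RBH
import Pool.Agent.H12.CP.AST
import Pool.Agent.H18.CP.CVW
import Pool.Agent.H1.CP.RKU
import Pool.Agent.H18.CP.DFR
import Pool.Agent.H40.CP.CPU
import Pool.Agent.H40.CP.CMA
import Pool.Agent.H69.CP.JOI

/-!
# Assembly of the board `cap2_modules` (MP_e37c09_lc)
-/

open Ordinal Cardinal Order Set
open scoped ZFSet

universe u

namespace HD

namespace All

theorem rbh : T_RBH.{u} := Pool.Agent.H85.CP.RBH.X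
theorem ast : T_AST.{u} := Pool.Agent.H12.CP.AST.X
theorem cvw : T_CVW.{u} := Pool.Agent.H18.CP.CVW.X
theorem rku : T_RKU.{u} := Pool.Agent.H1.CP.RKU.X
theorem dfr : T_DFR.{u} := Pool.Agent.H18.CP.DFR.X
theorem cpu : T_CPU.{u} := Pool.Agent.H40.CP.CPU.X
theorem cma : T_CMA.{u} := Pool.Agent.H40.CP.CMA.X
theorem joi : T_JOI.{u} := Pool.Agent.H69.CP.JOI.X cpu

/-- extendible cardinals -/
theorem m19 (δ : Ordinal.{u}) (hδ : Extendible δ) :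
    (CaseA δ ∨ ∀ l < δ, ∃ δ₁ δ₀, l < δ₁ ∧ δ₁ < δ₀ ∧ δ₀ < δ ∧
      ∀ K : Cardinal.{u}, K.IsRegular → δ₀ < K.ord → Few l (PC K) → RefT δ₁ δ₀ K) ∧
    ∀ K : Cardinal.{u}, K.IsRegular → δ < K.ord → (∃ l < δ, Few l (PC K)) →
      ((∀ U, ¬ MGe K.ord (hs K.ord) U) ∨ ∃ C, Clb K.ord C ∧ ∀ ν ∈ C, ν < K.ord →
        ν.cof.ord < δ → ∃ θ, PonHOD ν θ ∧ ∀ U, ¬ MGe ν θ U) → CaseA δ := by
  have h := Pool.Agent.H7.CP.Fin4.ext rbh ast cvw rku dfr cpu cma joi δ hδ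
  refine ⟨h.imp id fun h l hl => ?_, Pool.Agent.H7.CP.Fin4.cor δ h⟩
  obtain ⟨δ₁, δ₀, h1, h2, h3, h4⟩ := h l hl
  exact ⟨δ₁, δ₀, h1, h2, h3, fun K hK hδK hfew => (h4 K hK hδK hfew).1⟩

end All

end HD
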