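import Pool.Agent.H7.CP.Targets

/-!
# MP_e37c09_lc, row CAP: almost all points are captured
-/

open Ordinal Cardinal Order Set
open scoped ZFSet

universe u

namespace Pool.Agent.H7.CP.CAP

open _root_.HD Pool.Agent.H7.HDA

/-- `a` is a regular uncountable cardinal less than `D` -/
def Ma (D : Cardinal.{u}) (a : Ordinal.{u}) : Prop :=
  ∃ M : Cardinal.{u}, a = M.ord ∧ M.IsRegular ∧ ℵ₀ < M ∧ M < D

theorem X (hMAT : T_MAT.{u}) (hLCC : T_LCC.{u}) (hPGN : T_PGN.{u}) : T_CAP.{u} := by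
  classical
  intro D K W hD hWD hK hDK hfew hW
  have hB := All.bA D hD hWD
  have hD0 : ℵ₀ ≤ D := hB.dreg.aleph0_le
  have hDK1 : succ D < K := (Cardinal.cantor _).trans hDK
  have hDK' : D < K := (lt_succ D).trans hDK1
  have hK0 : ℵ₀ < K := hB.dunc.trans hDK'
  have hKc : K.ord.cof = K := hK.cof_ord
  have hKc0 : ℵ₀ < K.ord.cof := by rw [hKc]; exact hK0
  have hDle : D ≤ K.ord.cof := by rw [hKc]; exact hDK'.le
  have hlim : IsSuccLimit K.ord := Cardinal.isSuccLimit_ord hK0.le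
  have hSR : T_SR.{u} := Pool.Agent.H48.HD.SR.sr
  obtain ⟨en, hen⟩ := All.en.{u}
  obtain ⟨t, ht1, ht2, ht3⟩ := All.pr.{u}
  have ht : Prf t := ⟨ht1, ht2, ht3⟩
  obtain ⟨lam, Q, f, hEQ, -, hexc⟩ := N.enumK All.qf hB hK hDK' hfew
  by_contra hcon
  have hF : {ν : Ordinal.{u} | FullC ν}ᶜ ∈ W := Ultrafilter.compl_mem_iff_notMem.2 hcon
  -- the atoms
  have hst1 : ∀ a : Ordinal.{u}, ∃ (e : Ordinal.{u} → Ordinal.{u}) (C : Set Ordinal.{u}),
      Clb K.ord C ∧ (Ma D a → (∀ i < D.ord, Atom en a K.ord (e i)) ∧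
        ∀ ν ∈ C, ν < K.ord → Cf a ν → ∃ i < D.ord, ν ∈ E en (e i)) := by
    intro a
    by_cases ha : Ma D a
    · obtain ⟨M, rfl, hM, hM0, hMD⟩ := ha
      obtain ⟨e, h1, h2⟩ := hMAT en hen D K M hB hK hDK' hM hMD
      unfold Pos at h2
      push Not at h2
      obtain ⟨C, hC, h3⟩ := h2
      refine ⟨e, C, hC, fun _ => ⟨h1, fun ν hν hνK hcf => ?_⟩⟩
      by_contra h4
      push Not at h4
      exact h3 ν hνK hν h4 hcf
    · exact ⟨id, univ, Lm.clb_univ hK0, fun h => absurd h ha⟩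
  choose e C0 hC0 h0 using hst1
  -- the theorem for each atom
  have hst2 : ∀ a i : Ordinal.{u}, ∃ (S : Ordinal.{u} → Set Ordinal.{u}) (C : Set Ordinal.{u}),
      Clb K.ord C ∧ (Ma D a → i < D.ord →
        ¬ Pos om K.ord {γ | ∀ j < (succ D).ord, γ ∉ S j} ∧
        ∀ ν ∈ C, ν < K.ord → NE K lam ν → ν ∈ E en (e a i) → Cf a ν →
          (∃ j < (succ D).ord, Pos om ν (S j)) → ¬ UnC en ν (cc en ν)) := by
    intro a i
    by_cases ha : Ma D a ∧ i < D.ord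
    · obtain ⟨ha, hi⟩ := ha
      have hat := (h0 a ha).1 i hi
      obtain ⟨M, rfl, hM, hM0, hMD⟩ := ha
      obtain ⟨S, h1, C, hC, h2⟩ := hLCC en hen D K M lam Q f W hD hWD hK hDK1 hEQ hexc hW hM hM0
        hMD _ hat
      exact ⟨S, C, hC, fun _ _ => ⟨h1, h2⟩⟩
    · exact ⟨fun _ => ∅, univ, Lm.clb_univ hK0, fun h1 h2 => absurd ⟨h1, h2⟩ ha⟩
  choose S C1 hC1 h1 using hst2
  -- the set of the points which are covered by all families
  obtain ⟨R, hR⟩ : ∃ R : Set Ordinal.{u}, R = {γ | ∀ a < D.ord, ∀ i < D.ord, Ma D a →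
      ∃ j < (succ D).ord, γ ∈ S a i j} := ⟨_, rfl⟩
  have hDc : D.ord.card < K.ord.cof := by rw [hKc, Cardinal.card_ord]; exact hDK'
  have hempty : ∀ Y : Set Ordinal.{u}, (∀ b, b ∉ Y) → ¬ Pos om K.ord Y := fun Y hY hP => by
    obtain ⟨b, -, -, h, -⟩ := hP univ (Lm.clb_univ hK0)
    exact hY b h
  have hRc : ¬ Pos om K.ord Rᶜ := by
    have h2 := All.va om K.ord hKc0 D.ord hDc (fun a => {γ | ∃ i < D.ord, γ ∈ {γ | Ma D a ∧
      ∀ j < (succ D).ord, γ ∉ S a i j}}) fun a _ => All.va om K.ord hKc0 D.ord hDc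
        (fun i => {γ | Ma D a ∧ ∀ j < (succ D).ord, γ ∉ S a i j}) fun i hi => ?_
    · intro hP
      refine h2 (hP.mono fun γ _ hγ _ => ?_)
      rw [hR, mem_compl_iff, Set.mem_ofPred_eq] at hγ
      push Not at hγ
      obtain ⟨a, ha, i, hi, hMa, h3⟩ := hγ
      exact ⟨a, ha, i, hi, hMa, h3⟩
    · by_cases ha : Ma D a
      · intro hP
        exact (h1 a i ha hi).1 (hP.mono fun γ _ hγ _ => hγ.2)
      · exact hempty _ fun b hb => ha hb.1
  have hRp : Pos om K.ord R := by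
    by_contra hn
    refine null_union All.va hKc0 hn hRc (Pos.mono
      (All.vc ℵ₀ K.ord Cardinal.isRegular_aleph0 hKc0) fun b _ _ _ => ?_)
    by_cases hb : b ∈ R
    · exact Or.inl hb
    · exact Or.inr hb
  -- the pigeonhole principle
  obtain ⟨R', hR'R, hR'p, hR'⟩ := hPGN (succ D) K R
    (fun p => {γ | ∃ a i j, p = t a (t i j) ∧ γ ∈ S a i j}) (hD0.trans (lt_succ D).le) hK hDK hRp
  -- a point
  have hdiag0 := Pool.Agent.H33.HD.VD.diag hK hK0 C0 fun a _ => hC0 a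
  have hdiag1 := Pool.Agent.H33.HD.VD.diag hK hK0 (fun a => {x | 0 < x ∧ ∀ i < x, x ∈ C1 a i})
    fun a _ => Pool.Agent.H33.HD.VD.diag hK hK0 (C1 a) fun i _ => hC1 a i
  have hclub := fun {C : Set Ordinal.{u}} (h : Clb K.ord C) =>
    Pool.Agent.H20.HD9.LX.club_mem hW hlim h
  have hall : {ν : Ordinal.{u} | False} ∈ W := by
    filter_upwards [hF, hSR D ℵ₀ K.ord W hB.dreg hB.dunc hDle hW Cardinal.isRegular_aleph0 hB.dunc _
      hR'p, hclub hdiag0, hclub hdiag1, hW.lt, hW.lim, hW.cf,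
      hW.gt D.ord (Cardinal.ord_lt_ord.2 hDK'),
      All.nxx D K lam W hB.dreg hB.dunc hK hDK' hW hexc] with ν g1 g2 g3 g4 g5 g6 g7 g8 g9
    have g5' : ν < K.ord := g5
    have g6' : IsSuccLimit ν := g6
    have g7' : ν.cof < D := g7
    have g8' : D.ord < ν := g8
    have hcreg : ν.cof.IsRegular := Cardinal.isRegular_cof g6'
    have hMa : Ma D ν.cof.ord := ⟨ν.cof, rfl, hcreg, g9.1, g7'⟩
    have haD : ν.cof.ord < D.ord := Cardinal.ord_lt_ord.2 g7'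
    obtain ⟨i, hi, hνE⟩ := (h0 _ hMa).2 ν (g3.2 _ (haD.trans g8')) g5' rfl
    obtain ⟨γ0, -, -, hγ0, -⟩ := hR'p univ (Lm.clb_univ hK0)
    have hγR := hR'R hγ0
    rw [hR] at hγR
    obtain ⟨j, hj, hγS⟩ := hγR _ haD i hi hMa
    have hsucc : D.ord < (succ D).ord := Cardinal.ord_lt_ord.2 (lt_succ D)
    have hle : ℵ₀ ≤ succ D := hD0.trans (lt_succ D).le
    have hp : t ν.cof.ord (t i j) < (succ D).ord := ht.lt _ hle _ (haD.trans hsucc) _
      (ht.lt _ hle _ (hi.trans hsucc) _ hj)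
    have hall' : ∀ γ ∈ R', γ ∈ S ν.cof.ord i j := by
      rcases hR' _ hp with h2 | h2
      · intro γ hγ
        obtain ⟨a', i', j', h3, h4⟩ := h2 γ hγ
        obtain ⟨rfl, h5⟩ := ht.inj _ _ _ _ h3
        obtain ⟨rfl, rfl⟩ := ht.inj _ _ _ _ h5
        exact h4
      · exact absurd ⟨_, _, _, rfl, hγS⟩ (h2 γ0 hγ0)
    have g4' := (g4.2 _ (haD.trans g8')).2 i (hi.trans g8')
    refine (h1 _ i hMa hi).2 ν g4' g5' g9 hνE rfl ⟨j, hj, g2.mono fun γ _ h2 _ => hall' γ h2⟩ ?_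
    have g1' : ¬ FullC ν := g1
    unfold FullC at g1'
    push Not at g1'
    obtain ⟨A, hA1, hA2, hA3⟩ := g1'
    obtain ⟨c, rfl⟩ := (hen.od A).1 hA1.od
    exact csInf_mem (s := {c | UnC en ν c}) ⟨c, hA1, hA2, hA3⟩
  exact absurd (W.nonempty_of_mem hall) (by simp)

end Pool.Agent.H7.CP.CAP
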