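import Pool.Agent.H7.HDA.All11

/-!
# MP_e37c09_lc: capturing of sets by normal measures of HOD. Definitions
-/

open Ordinal Cardinal Order Set
open scoped ZFSet

universe u

namespace HD

/-! ## Statement-level definitions -/

/-- The set `A` (of subsets of `ν`) is in the ultrapower of HOD by a normal measure `U` of HOD on
`ν`: there is `h` in HOD such that a subset `x` of `ν` in HOD is in `A` if and only if
`(b, x ∩ b) ∈ h` for `U`-almost all `b`. -/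
def Capt (ν : Ordinal.{u}) (A : ZFSet.{u}) : Prop := ∃ U h, HMeas ν U ∧ HOD h ∧
  ∀ x, HOD x → x ⊆ ν.toZFSet →
    (x ∈ A ↔ (ν.toZFSet).sep (fun b => ZFSet.pair b (x ∩ b) ∈ h) ∈ U)

/-- Each set of subsets of `ν` in HOD is in the ultrapower of HOD by a normal measure of HOD
on `ν`. -/
def FullC (ν : Ordinal.{u}) : Prop := ∀ A, HOD A → (∀ x ∈ A, x ⊆ ν.toZFSet) → Capt ν A

/-- In HOD there is a map from the power set of `ν` onto `θ`. -/
def PonHOD (ν θ : Ordinal.{u}) : Prop := ∃ f, HOD f ∧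
  (∀ (x : ZFSet.{u}) (b b' : Ordinal.{u}), ZFSet.pair x b.toZFSet ∈ f →
    ZFSet.pair x b'.toZFSet ∈ f → b = b') ∧
  ∀ b < θ, ∃ x, HOD x ∧ x ⊆ ν.toZFSet ∧ ZFSet.pair x b.toZFSet ∈ f

/-! ## Relations between ordinals and sets of ordinals -/

/-- `H ν X` depends only on `X ∩ ν` and is uniformly definable. -/
structure HR (H : Ordinal.{u} → Set Ordinal.{u} → Prop) : Prop where
  ext : ∀ (ν : Ordinal.{u}) (X Y : Set Ordinal.{u}), (∀ a < ν, (a ∈ X ↔ a ∈ Y)) →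
    (H ν X ↔ H ν Y)
  dfn : ∀ Y : Ordinal.{u} → (ℕ → Ordinal.{u}) → Prop,
    (DO fun w => Y (w 0) (fun n => w (n + 1))) → ∀ i : ℕ, DO fun w => H (w i) {a | Y a w}

/-- `c` is the code of a set of subsets of `ν` in HOD which is not captured -/
def UnC (en : Ordinal.{u} → ZFSet.{u}) (ν c : Ordinal.{u}) : Prop :=
  HOD (en c) ∧ (∀ x ∈ en c, x ⊆ ν.toZFSet) ∧ ¬ Capt ν (en c)

/-- the least code of a set of subsets of `ν` in HOD which is not captured -/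
noncomputable def cc (en : Ordinal.{u} → ZFSet.{u}) (ν : Ordinal.{u}) : Ordinal.{u} :=
  sInf {c | UnC en ν c}

/-- membership in the first set which is not captured -/
def AC (en : Ordinal.{u} → ZFSet.{u}) (ν : Ordinal.{u}) (X : Set Ordinal.{u}) : Prop :=
  os ν X ∈ en (cc en ν)

/-- the relation given by an atom `c` and the relation `A` -/
def Hc (en : Ordinal.{u} → ZFSet.{u}) (μ c : Ordinal.{u})
    (A : Ordinal.{u} → Set Ordinal.{u} → Prop) (ν : Ordinal.{u}) (X : Set Ordinal.{u}) : Prop :=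
  (ν ∈ E en c ∧ Cf μ ν ∧ A ν X) ∨ Pos μ ν {ξ | ξ ∈ E en c ∧ A ξ X}

/-- the points `ν` which are in the atom `c`, or at which the atom `c` is positive -/
def Sg (en : Ordinal.{u} → ZFSet.{u}) (μ c : Ordinal.{u}) : Set Ordinal.{u} :=
  {ν | (ν ∈ E en c ∧ Cf μ ν) ∨ Pos μ ν (E en c)}

/-- `H ν` and `H K` agree on the sets `Q (f ζ)`, `ζ < ν` -/
def CoH (K : Cardinal.{u}) (Q : Ordinal.{u} → Ordinal.{u} → Prop)
    (f : Ordinal.{u} → Ordinal.{u}) (H : Ordinal.{u} → Set Ordinal.{u} → Prop)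
    (ν : Ordinal.{u}) : Prop :=
  ∀ ζ < ν, (H K.ord {a | Q (f ζ) a} ↔ H ν {a | Q (f ζ) a})

/-! ## Good points -/

/-- `γ` is good for `ξ` -/
def Gdh (K : Cardinal.{u}) (Q : Ordinal.{u} → Ordinal.{u} → Prop)
    (f : Ordinal.{u} → Ordinal.{u}) (t : Ordinal.{u} → Ordinal.{u} → Ordinal.{u})
    (H : Ordinal.{u} → Set Ordinal.{u} → Prop) (γ ξ : Ordinal.{u}) : Prop :=
  Gdd Q f t γ ξ ∧ ∀ ζ < γ, (H K.ord {a | Q (f ζ) a} ↔ H ξ {a | Q (f ζ) a})

/-- the `γ` such that there is a `ξ ∈ X` for which `γ` is good -/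
def Th (K : Cardinal.{u}) (X : Set Ordinal.{u}) (Q : Ordinal.{u} → Ordinal.{u} → Prop)
    (f : Ordinal.{u} → Ordinal.{u}) (t : Ordinal.{u} → Ordinal.{u} → Ordinal.{u})
    (H : Ordinal.{u} → Set Ordinal.{u} → Prop) : Set Ordinal.{u} :=
  {γ | ∃ ξ, γ < ξ ∧ ξ < K.ord ∧ ξ ∈ X ∧ Gdh K Q f t H γ ξ}

/-- the least `ξ ∈ X` for which `γ` is good -/
noncomputable def gh (K : Cardinal.{u}) (X : Set Ordinal.{u})
    (Q : Ordinal.{u} → Ordinal.{u} → Prop) (f : Ordinal.{u} → Ordinal.{u})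
    (t : Ordinal.{u} → Ordinal.{u} → Ordinal.{u})
    (H : Ordinal.{u} → Set Ordinal.{u} → Prop) (γ : Ordinal.{u}) : Ordinal.{u} :=
  sInf {ξ | γ < ξ ∧ ξ < K.ord ∧ ξ ∈ X ∧ Gdh K Q f t H γ ξ}

/-- `LN` together with coherence for `H` -/
structure LNh (en : Ordinal.{u} → ZFSet.{u}) (t : Ordinal.{u} → Ordinal.{u} → Ordinal.{u})
    (X : Set Ordinal.{u}) (H : Ordinal.{u} → Set Ordinal.{u} → Prop) (ν : Ordinal.{u})
    (T : Set Ordinal.{u}) (g : Ordinal.{u} → Ordinal.{u}) : Prop where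
  ln : LN en t X ν T g
  co : ∀ z, ∀ i < ν, ¬ Pos om ν {γ | γ ∈ T ∧ ∃ j < i, ¬ (H ν (E2 en z j) ↔ H (g γ) (E2 en z j))}

/-- `(T, g)` is minimal with this property -/
def LMh (en : Ordinal.{u} → ZFSet.{u}) (t : Ordinal.{u} → Ordinal.{u} → Ordinal.{u})
    (X : Set Ordinal.{u}) (H : Ordinal.{u} → Set Ordinal.{u} → Prop) (ν : Ordinal.{u})
    (T : Set Ordinal.{u}) (g : Ordinal.{u} → Ordinal.{u}) : Prop :=
  LNh en t X H ν T g ∧ ∀ (T' : Set Ordinal.{u}) (g' : Ordinal.{u} → Ordinal.{u}),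
    LNh en t X H ν T' g' → ¬ Pos om ν {γ | γ ∈ T' ∧ (γ ∉ T ∨ g' γ < g γ)}

end HD
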