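import Pool.Agent.H7.CP.All

/-!
# MP_e37c09_lc: reflection and capturing by normal measures of HOD. The last step
-/

open Ordinal Cardinal Order Set
open scoped ZFSet

universe u

namespace Pool.Agent.H7.CP.Fin

open _root_.HD Pool.Agent.H7.HDA

theorem cof_gt {D K M : Cardinal.{u}} (hDr : D.IsRegular) (hD0 : ℵ₀ < D) (hK : K.IsRegular)
    (hDK : D < K) {W : Ultrafilter Ordinal.{u}} (hW : WN D K.ord W) (hM : M.IsRegular)
    (hMD : M < D) : {ν : Ordinal.{u} | M < ν.cof} ∈ W := by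
  have hKc : K.ord.cof = K := hK.cof_ord
  have h2 : Pos M.ord K.ord univ := All.vc M K.ord hM (by rw [hKc]; exact hMD.trans hDK)
  have h3 := Pool.Agent.H48.HD.SR.sr D M K.ord W hDr hD0 (by rw [hKc]; exact hDK.le) hW hM hMD
    univ h2
  filter_upwards [h3, hW.lim] with ν h4 h5
  exact Pool.Agent.H92.HD.pc M ν univ hM h5 h4

theorem few_notin {D K : Cardinal.{u}} (hDr : D.IsRegular) (hD0 : ℵ₀ < D) (hK : K.IsRegular)
    (hDK : D < K) {W : Ultrafilter Ordinal.{u}} (hW : WN D K.ord W) {Ξ : Set Ordinal.{u}}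
    (hΞ : Few D.ord Ξ) : {ν : Ordinal.{u} | ν.cof.ord ∉ Ξ} ∈ W := by
  classical
  obtain ⟨τ, hτ, e, he⟩ := hΞ
  have h1 := hW.cmp τ hτ (fun i => {ν | ν.cof.ord ≠ e i}) fun i _ => ?_
  · filter_upwards [h1] with ν h2 h3
    obtain ⟨i, hi, h4⟩ := he _ h3
    exact h2 i hi h4.symm
  · by_cases hM : ∃ M : Cardinal.{u}, M.IsRegular ∧ M < D ∧ e i = M.ord
    · obtain ⟨M, hM, hMD, hMe⟩ := hM
      filter_upwards [cof_gt hDr hD0 hK hDK hW hM hMD] with ν h7 h6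
      rw [hMe] at h6
      exact absurd (Cardinal.ord_injective h6) h7.ne'
    · filter_upwards [hW.cf, hW.lim] with ν h4 h5 h6
      exact hM ⟨ν.cof, Cardinal.isRegular_cof h5, h4, h6.symm⟩

/-- the theorem for one cardinal -/
theorem ref_one {D' D K : Cardinal.{u}} (hD' : GoodN D') (hWD' : GoodW D') (hD : GoodN D)
    (hWD : GoodW D) (hDD : D' < D) (hK : K.IsRegular) (hDK : 2 ^ (succ D) < K) {l : Ordinal.{u}}
    (hl : l ≤ D'.ord) (hfew : Few l (PC K)) :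
    RefM D'.ord ((2 : Cardinal.{u}) ^ (succ D)).ord K := by
  intro A hA
  have hB' := All.bA D' hD' hWD'
  have hB := All.bA D hD hWD
  have hDK1 : succ D < K := (Cardinal.cantor _).trans hDK
  have hDK' : D < K := (lt_succ D).trans hDK1
  have hK0 : ℵ₀ < K := hB.dunc.trans hDK'
  have hKc : K.ord.cof = K := hK.cof_ord
  have hlim : IsSuccLimit K.ord := Cardinal.isSuccLimit_ord hK0.le
  have hDD' : D'.ord ≤ D.ord := Cardinal.ord_le_ord.2 hDD.le
  have hfew1 : Few D.ord (PC K) := few_le hfew (hl.trans hDD')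
  obtain ⟨W, hW⟩ := hWD K.ord (by rw [hKc]; exact hDK'.le)
  have hcap := All.cap D K W hD hWD hK hDK hfew1 hW
  have hcapE : {ν : Ordinal.{u} | CapPt ν} = {ν | FullC ν} := by
    ext ν
    exact ⟨fun h => h.1, fun h => ⟨h, fun θ hθ => All.cmr ν θ h hθ⟩⟩
  rw [← hcapE] at hcap
  have hcapD : DS {ν : Ordinal.{u} | CapPt ν} := by
    rw [hcapE]
    exact All.cd3
  have href : {ν | RefPt A ν} ∈ W := by
    filter_upwards [All.rfl' D K W hD hWD hK hDK hfew1 hW _ (RZ.hr hA.od)] with ν hν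
    exact RZ.ref_of hν
  have hcof := cof_gt hB.dreg hB.dunc hK hDK' hW hB'.dreg hDD
  have hclub := fun {C : Set Ordinal.{u}} (h : Clb K.ord C) =>
    Pool.Agent.H20.HD9.LX.club_mem hW hlim h
  constructor
  · intro C hC
    obtain ⟨ν, h1, h2, h3, h4, h5, h6⟩ := W.nonempty_of_mem (Filter.inter_mem (hclub hC)
      (Filter.inter_mem hcof (Filter.inter_mem hcap (Filter.inter_mem href
        (Filter.inter_mem hW.lt hW.cf)))))
    refine ⟨ν, h5, h1, Cardinal.ord_lt_ord.2 h2, Cardinal.ord_lt_ord.2 ?_, h4, h3⟩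
    have h6' : ν.cof < D := h6
    exact h6'.trans ((lt_succ D).trans (Cardinal.cantor _))
  · obtain ⟨Ξ, hΞ, h1, -⟩ := All.rk_of hD' hWD' hD hWD hDD hK hDK1 hl hfew
    refine h1 _ (hod_os (X := {ν | RefPt A ν ∧ CapPt ν}) (DO.and (RZ.ds_ref hA.od) hcapD) K.ord) (fun z hz => ?_) fun C hC => ?_
    · obtain ⟨a, ha, -, rfl⟩ := mem_os.1 hz
      exact toZFSet_mem_toZFSet_iff.2 ha
    · have h2 := few_notin hB.dreg hB.dunc hK hDK' hW (few_le hΞ (hl.trans hDD'))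
      obtain ⟨ν, h3, h4, h5, h6, h7, h8⟩ := W.nonempty_of_mem (Filter.inter_mem (hclub hC)
        (Filter.inter_mem hcof (Filter.inter_mem hcap (Filter.inter_mem href
          (Filter.inter_mem hW.lt h2)))))
      exact ⟨ν, h7, h3, ord_mem_os.2 ⟨h7, h6, h5⟩, Cardinal.ord_lt_ord.2 h4, h8⟩

/-- extendible cardinals -/
theorem ext (δ : Ordinal.{u}) (hδ : Extendible δ) : CaseA δ ∨ ∀ l < δ, ∃ δ₁ δ₀, l < δ₁ ∧
    δ₁ < δ₀ ∧ δ₀ < δ ∧ ∀ K : Cardinal.{u}, K.IsRegular → δ₀ < K.ord → Few l (PC K) →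
      RefM δ₁ δ₀ K ∧ StM K := by
  by_cases hA : CaseA δ
  · exact Or.inl hA
  refine Or.inr fun l hl => ?_
  obtain ⟨D', h1, h2, h3, h4⟩ := All.gr δ hδ hA l hl
  obtain ⟨D, g1, g2, g3, g4⟩ := All.gr δ hδ hA D'.ord h1
  obtain ⟨η, -, θ, j, hj⟩ := All.xa δ hδ 0
  obtain ⟨E, hE, -, h5, -⟩ := All.xb δ η θ j hj
  have hDD : D' < D := Cardinal.ord_lt_ord.1 g2
  refine ⟨D'.ord, ((2 : Cardinal.{u}) ^ (succ D)).ord, h2, g2.trans (Cardinal.ord_lt_ord.2
    ((lt_succ D).trans (Cardinal.cantor _))), ?_, fun K hK hDK hfew => ?_⟩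
  · rw [hE] at g1 ⊢
    exact Cardinal.ord_lt_ord.2 (h5.isStrongPrelimit
      (h5.isSuccLimit.succ_lt (Cardinal.ord_lt_ord.1 g1)))
  · have hDK' := Cardinal.ord_lt_ord.1 hDK
    exact ⟨ref_one h3 h4 g3 g4 hDD hK hDK' h2.le hfew,
      All.nsta D K g3 g4 hK ((Cardinal.cantor _).trans hDK') (few_le hfew (h2.trans g2).le)⟩

end Pool.Agent.H7.CP.Fin
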