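import Pool.Agent.H7.CP.Targets2

/-!
# MP_e37c09_lc: reflection at almost all points of one stationary set
-/

open Ordinal Cardinal Order Set
open scoped ZFSet

universe u

namespace Pool.Agent.H7.CP.Fin2

open _root_.HD Pool.Agent.H7.HDA Pool.Agent.H7.CP.RFL Pool.Agent.H7.CP.RZ Pool.Agent.H7.CP.Fin
open Pool.Agent.H3.CP.CD2 (os_congr)

/-- reflection of one set at almost all points of the set with code `c`, or no reflection -/
def Bad (en : Ordinal.{u} → ZFSet.{u}) (K : Cardinal.{u}) (a c : Ordinal.{u}) (A : ZFSet.{u})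
    (C : Set Ordinal.{u}) : Prop :=
  HOD A ∧ Clb K.ord C ∧ ∀ ν ∈ C, ν < K.ord → ν ∈ E en c → Cf a ν → ¬ (RefPt A ν ∧ CapPt ν)

theorem capE : {ν : Ordinal.{u} | CapPt ν} = {ν | FullC ν} := by
  ext ν
  exact ⟨fun h => h.1, fun h => ⟨h, fun θ hθ => All.cmr ν θ h hθ⟩⟩

theorem capD : DS {ν : Ordinal.{u} | CapPt ν} := by
  rw [capE]
  exact All.cd3

/-- an atom without a bad set -/
theorem good_atom (hRKU : T_RKU.{u}) {en : Ordinal.{u} → ZFSet.{u}} (hen : EN en)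
    {δ₁ δ₀ : Ordinal.{u}} {M K : Cardinal.{u}} (hM : M.IsRegular) (h1 : δ₁ < M.ord)
    (h0 : M.ord < δ₀) (hK : K.IsRegular) (hK0 : ℵ₀ < K) {c : Ordinal.{u}}
    (hc : Atom en M.ord K.ord c) (hno : ∀ A C, ¬ Bad en K M.ord c A C) : RefS δ₁ δ₀ K := by
  classical
  obtain ⟨s, hs⟩ : ∃ s, s = os K.ord {ν | ν ∈ E en c ∧ Cf M.ord ν} := ⟨_, rfl⟩
  have hsD : DS {ν : Ordinal.{u} | ν ∈ E en c ∧ Cf M.ord ν} := by
    refine DO.and ?_ ?_
    · have h1 := (All.ea en hen).1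
      exact DO.sub (R := fun c w => w 0 ∈ E en c) c (DO.s2 (X := fun a b => a ∈ E en b) h1 1 0)
    · exact DO.sub (R := fun m w => Cf m (w 0)) M.ord (do_Cf All.la 0 1)
  have hms : ∀ ν : Ordinal.{u}, ν.toZFSet ∈ s ↔ ν < K.ord ∧ ν ∈ E en c ∧ Cf M.ord ν := by
    intro ν
    rw [hs, ord_mem_os]
    rfl
  -- the sequences of sets
  have hA : ∀ A, HOD A → ∃ C, Clb K.ord C ∧ ∀ ν ∈ C, ν.toZFSet ∈ s → RefPt A ν ∧ CapPt ν := by
    intro A hA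
    have hD : DS {ν : Ordinal.{u} | RefPt A ν ∧ CapPt ν} := DO.and (ds_ref hA.od) capD
    obtain ⟨x, hx⟩ := (All.ea en hen).2.2.1 _ hD K.ord
    have h2 : Pos M.ord K.ord (E en c ∩ E en x) := by
      by_contra h3
      unfold Pos at h3
      push Not at h3
      obtain ⟨C, hC, h4⟩ := h3
      refine hno A C ⟨hA, hC, fun ν g1 g2 g3 g4 g5 => h4 ν g2 g1 ⟨g3, ?_⟩ g4⟩
      rw [hx]
      exact ⟨g5, g2⟩
    have h3 : ¬ Pos M.ord K.ord (E en c \ E en x) := fun h3 => hc.ult x ⟨h2, h3⟩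
    unfold Pos at h3
    push Not at h3
    obtain ⟨C, hC, h4⟩ := h3
    refine ⟨C, hC, fun ν g1 g2 => ?_⟩
    obtain ⟨g3, g4, g5⟩ := (hms ν).1 g2
    by_contra g6
    refine h4 ν g3 g1 ⟨g4, fun g7 => g6 ?_⟩ g5
    rw [hx] at g7
    exact g7.1
  have hF : ∀ F : Ordinal.{u} → ZFSet.{u}, (∀ a, HOD (F a)) → ∃ C, Clb K.ord C ∧
      ∀ ν ∈ C, ν.toZFSet ∈ s → CapPt ν ∧ ∀ a < ν, RefPt (F a) ν := by
    intro F hF
    choose C hC h2 using fun a => hA (F a) (hF a)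
    refine ⟨_, Pool.Agent.H33.HD.VD.diag hK hK0 C fun a _ => hC a, fun ν g1 g2 => ?_⟩
    exact ⟨(h2 0 ν (g1.2 0 g1.1) g2).2, fun a ha => (h2 a ν (g1.2 a ha) g2).1⟩
  -- the measure
  have hCM := All.hd en M.ord K c hK hK0 hc
  have hHM := All.he en hen M.ord K.ord c hCM
  have hNM := (All.hmi _ _).1 hHM
  have hU : ∀ x, x ∈ uz en M.ord K.ord c ↔ HOD x ∧ x ⊆ K.ord.toZFSet ∧ ∃ C, Clb K.ord C ∧
      ∀ ν ∈ C, ν.toZFSet ∈ s → ν.toZFSet ∈ x := by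
    intro x
    rw [Pool.Agent.H4.HD.HE.mem_uz]
    constructor
    · rintro ⟨g1, g2, g3⟩
      unfold Pos at g3
      push Not at g3
      obtain ⟨C, hC, g4⟩ := g3
      refine ⟨HOD.of_sub g2 g1, g1, C, hC, fun ν g5 g6 => ?_⟩
      obtain ⟨g7, g8, g9⟩ := (hms ν).1 g6
      by_contra g10
      exact g4 ν g7 g5 ⟨g8, g10⟩ g9
    · rintro ⟨g1, g2, C, hC, g3⟩
      refine ⟨g2, g1.od, fun g4 => ?_⟩
      obtain ⟨ν, g5, g6, g7, g8⟩ := g4 C hC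
      exact g7.2 (g3 ν g6 ((hms ν).2 ⟨g5, g7.1, g8⟩))
  have hcap : os K.ord {ν | CapPt ν} ∈ uz en M.ord K.ord c := by
    rw [hU]
    obtain ⟨C, hC, h2⟩ := hF (fun _ => ∅) fun _ => Pool.Agent.H63.HDA.LI.hod_empty
    refine ⟨hod_os capD _, fun z hz => ?_, C, hC, fun ν g1 g2 => ?_⟩
    · obtain ⟨a, ha, -, rfl⟩ := mem_os.1 hz
      exact toZFSet_mem_toZFSet_iff.2 ha
    · exact ord_mem_os.2 ⟨((hms ν).1 g2).1, (h2 ν g1 g2).1⟩
  refine ⟨M, hM, h1, h0, s, uz en M.ord K.ord c, ?_, ?_, ?_, ?_, ?_, hU, hF⟩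
  · rw [hs]
    exact hod_os hsD _
  · intro z hz
    rw [hs] at hz
    obtain ⟨a, ha, -, rfl⟩ := mem_os.1 hz
    exact toZFSet_mem_toZFSet_iff.2 ha
  · intro ν hν
    exact Cardinal.ord_injective ((hms ν).1 hν).2.2
  · intro C hC
    obtain ⟨ν, g1, g2, g3, g4⟩ := hc.pos C hC
    exact ⟨ν, g1, g2, (hms ν).2 ⟨g1, g3, g4⟩⟩
  · exact hRKU K.ord _ _ hNM capD hcap fun b hb θ hθ => hb.2 θ hθ

theorem ref_s (hRBH : T_RBH.{u}) (hAST : T_AST.{u}) (hCVW : T_CVW.{u}) (hRKU : T_RKU.{u})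
    {D' D K : Cardinal.{u}} (hD' : GoodN D') (hWD' : GoodW D') (hD : GoodN D) (hWD : GoodW D)
    (hDD : D' < D) (hK : K.IsRegular) (hDK : 2 ^ (succ D) < K) (hfew : Few D.ord (PC K)) :
    RefS D'.ord D.ord K := by
  classical
  have hB := All.bA D hD hWD
  have hB' := All.bA D' hD' hWD'
  have hD0 : ℵ₀ ≤ D := hB.dreg.aleph0_le
  have hDK1 : succ D < K := (Cardinal.cantor _).trans hDK
  have hDK' : D < K := (lt_succ D).trans hDK1
  have hDKo : D.ord < K.ord := Cardinal.ord_lt_ord.2 hDK'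
  have hK0 : ℵ₀ < K := hB.dunc.trans hDK'
  have hKc : K.ord.cof = K := hK.cof_ord
  have hKc0 : ℵ₀ < K.ord.cof := by rw [hKc]; exact hK0
  have hDle : D ≤ K.ord.cof := by rw [hKc]; exact hDK'.le
  have hlim : IsSuccLimit K.ord := Cardinal.isSuccLimit_ord hK0.le
  have hDpos : 0 < D.ord := (Cardinal.isSuccLimit_ord hD0).bot_lt
  obtain ⟨en, hen⟩ := All.en.{u}
  obtain ⟨t, ht1, ht2, ht3⟩ := All.pr.{u}
  have ht : Prf t := ⟨ht1, ht2, ht3⟩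
  obtain ⟨lam, Q, f, hEQ, hcard, hexc⟩ := N.enumK All.qf hB hK hDK' hfew
  obtain ⟨W, hW⟩ := hWD K.ord (by rw [hKc]; exact hDK'.le)
  by_contra hcon
  -- the atoms
  have hst1 : ∀ a : Ordinal.{u}, ∃ (e : Ordinal.{u} → Ordinal.{u}) (C : Set Ordinal.{u}),
      Clb K.ord C ∧ (Ma D a → (∀ i < D.ord, Atom en a K.ord (e i)) ∧
        ∀ ν ∈ C, ν < K.ord → Cf a ν → ∃ i < D.ord, ν ∈ E en (e i)) := by
    intro a
    by_cases ha : Ma D a
    · obtain ⟨M, rfl, hM, hM0, hMD⟩ := ha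
      obtain ⟨e, h1, h2⟩ := All.mat en hen D K M hB hK hDK' hM hMD
      unfold Pos at h2
      push Not at h2
      obtain ⟨C, hC, h3⟩ := h2
      refine ⟨e, C, hC, fun _ => ⟨h1, fun ν hν hνK hcf => ?_⟩⟩
      by_contra h4
      push Not at h4
      exact h3 ν hνK hν h4 hcf
    · exact ⟨id, univ, Lm.clb_univ hK0, fun h => absurd h ha⟩
  choose e C0 hC0 h0 using hst1
  -- the bad sets
  have hst2 : ∀ a i : Ordinal.{u}, ∃ (A : ZFSet.{u}) (C : Set Ordinal.{u}), HOD A ∧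
      Clb K.ord C ∧ (Ma D a → D'.ord < a → i < D.ord → ∀ ν ∈ C, ν < K.ord → ν ∈ E en (e a i) →
        Cf a ν → ¬ (RefPt A ν ∧ CapPt ν)) := by
    intro a i
    by_cases ha : Ma D a ∧ D'.ord < a ∧ i < D.ord
    · obtain ⟨hMa, ha1, hi⟩ := ha
      have hat := (h0 a hMa).1 i hi
      obtain ⟨M, rfl, hM, hM0, hMD⟩ := hMa
      by_contra hno
      refine hcon (good_atom hRKU hen hM ha1 (Cardinal.ord_lt_ord.2 hMD) hK hK0 hat
        fun A C hBad => hno ⟨A, C, hBad.1, hBad.2.1, fun _ _ _ => hBad.2.2⟩)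
    · exact ⟨∅, univ, Pool.Agent.H63.HDA.LI.hod_empty, Lm.clb_univ hK0, fun h1 h2 h3 => absurd ⟨h1, h2, h3⟩ ha⟩
  choose A C1 hAH hC1 h1 using hst2
  obtain ⟨hHRF, hidx⟩ := hRBH en hen K lam Q f t hK hK0 ht hEQ (All.pk D D K hB hK hDK')
  have hst3 : ∀ a i : Ordinal.{u}, ∃ β < lam, ∀ ν < K.ord, ∀ Y : Set Ordinal.{u}, DS Y →
      (RB en Q t β ν Y ↔ RA (A a i) ν Y) := fun a i => hidx (A a i) (hAH a i)
  choose β hβ h2 using hst3
  -- the number of the atom which contains `ν`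
  have hst4 : ∀ ν : Ordinal.{u}, ∃ i < D.ord, (∃ i < D.ord, ν ∈ E en (e ν.cof.ord i)) →
      ν ∈ E en (e ν.cof.ord i) := by
    intro ν
    by_cases h : ∃ i < D.ord, ν ∈ E en (e ν.cof.ord i)
    · obtain ⟨i, hi, h3⟩ := h
      exact ⟨i, hi, fun _ => h3⟩
    · exact ⟨0, hDpos, fun h' => absurd h' h⟩
  choose I hI h3 using hst4
  obtain ⟨b, hb⟩ : ∃ b : Ordinal.{u} → Ordinal.{u},
      b = fun ν => if ν.cof < D then β ν.cof.ord (I ν) else β 0 0 := ⟨_, rfl⟩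
  have hbval : ∀ ν, ∃ a < D.ord, ∃ i < D.ord, b ν = β a i := by
    intro ν
    rw [hb]
    by_cases h : ν.cof < D
    · exact ⟨_, Cardinal.ord_lt_ord.2 h, _, hI ν, by simp only [h, if_true]⟩
    · exact ⟨0, hDpos, 0, hDpos, by simp only [h, if_false]⟩
  have hbfew : Few K.ord {x | ∃ ν < K.ord, b ν = x} := by
    refine ⟨D.ord, hDKo, fun p => if h : ∃ q : Ordinal.{u} × Ordinal.{u}, p = t q.1 q.2 then
      β h.choose.1 h.choose.2 else 0, ?_⟩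
    rintro x ⟨ν, -, rfl⟩
    obtain ⟨a, ha, i, hi, h4⟩ := hbval ν
    refine ⟨t a i, ht.lt D hD0 a ha i hi, ?_⟩
    have h5 : ∃ q : Ordinal.{u} × Ordinal.{u}, t a i = t q.1 q.2 := ⟨(a, i), rfl⟩
    beta_reduce
    rw [dif_pos h5, h4]
    obtain ⟨h6, h7⟩ := ht.inj _ _ _ _ h5.choose_spec
    rw [← h6, ← h7]
  obtain ⟨z, i0, hi0, hz⟩ := hCVW en hen D K lam W hB.dreg hB.dunc hK hDK' hEQ.lt hW
    (All.exx D K lam hB.dreg hB.dunc hK hDK' hEQ.lt hcard) b hbfew fun ν _ => by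
      obtain ⟨a, -, i, -, h4⟩ := hbval ν
      rw [h4]
      exact hβ a i
  have hcz : DR fun a b => b = af en z a := by
    refine DO.sub z (R := fun z w => w 1 = af en z (w 0)) ?_
    exact DO.s3 (X := fun a z c => c = af en z a) (All.fdd en hen).1 1 0 2
  obtain ⟨hHR, hast⟩ := hAST _ hHRF t ht (af en z) hcz i0
  have hdiag0 := Pool.Agent.H33.HD.VD.diag hK hK0 C0 fun a _ => hC0 a
  have hdiag1 := Pool.Agent.H33.HD.VD.diag hK hK0 (fun a => {x | 0 < x ∧ ∀ i < x, x ∈ C1 a i})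
    fun a _ => Pool.Agent.H33.HD.VD.diag hK hK0 (C1 a) fun i _ => hC1 a i
  have hclub := fun {C : Set Ordinal.{u}} (h : Clb K.ord C) =>
    Pool.Agent.H20.HD9.LX.club_mem hW hlim h
  have hcap := All.cap D K W hD hWD hK hDK hfew hW
  rw [← capE] at hcap
  have hall : {ν : Ordinal.{u} | False} ∈ W := by
    filter_upwards [All.rfl' D K W hD hWD hK hDK hfew hW _ hHR, hz, hclub hdiag0, hclub hdiag1,
      hW.lt, hW.lim, hW.cf, hW.gt D.ord hDKo, hW.gt i0 hi0,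
      cof_gt hB.dreg hB.dunc hK hDK' hW hB'.dreg hDD, hcap,
      hclub (All.cb K hK hK0 t (ht.lt K hK0.le)),
      cof_gt hB.dreg hB.dunc hK hDK' hW Cardinal.isRegular_aleph0 hB.dunc]
      with ν g1 g2 g3 g4 g5 g6 g7 g8 g9 g10 g11 g12 g13
    have g5' : ν < K.ord := g5
    have g6' : IsSuccLimit ν := g6
    have g7' : ν.cof < D := g7
    have g8' : D.ord < ν := g8
    have g9' : i0 < ν := g9
    have g10' : D' < ν.cof := g10
    have g13' : ℵ₀ < ν.cof := g13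
    have hMa : Ma D ν.cof.ord := ⟨ν.cof, rfl, Cardinal.isRegular_cof g6', g13', g7'⟩
    have haD : ν.cof.ord < D.ord := Cardinal.ord_lt_ord.2 g7'
    have hνE := h3 ν ((h0 _ hMa).2 ν (g3.2 _ (haD.trans g8')) g5' rfl)
    have g4' := (g4.2 _ (haD.trans g8')).2 (I ν) ((hI ν).trans g8')
    obtain ⟨j, hj, hjb⟩ := g2
    obtain ⟨U, hUU⟩ := g1
    have hRP := hast ν U g9' g12.2 hUU j hj
    have hbν : b ν = β ν.cof.ord (I ν) := by
      rw [hb]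
      simp only [g7', if_true]
    rw [hjb, hbν] at hRP
    refine h1 _ (I ν) hMa (Cardinal.ord_lt_ord.2 g10') (hI ν) ν g4' g5' hνE rfl
      ⟨ref_of ?_, g11⟩
    obtain ⟨hU, h4⟩ := hRP
    refine ⟨U, hU, fun Y hY => ?_⟩
    rw [← h2 _ _ ν g5' Y hY, h4 Y hY]
    have h5 : os ν {ξ | RB en Q t (β ν.cof.ord (I ν)) ξ Y} =
        os ν {ξ | RA (A ν.cof.ord (I ν)) ξ Y} :=
      os_congr fun ξ hξ => h2 _ _ ξ (hξ.trans g5') Y hY
    rw [h5]
  exact absurd (W.nonempty_of_mem hall) (by simp)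

end Pool.Agent.H7.CP.Fin2
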