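import Pool.Agent.H7.CP.Targets3
import Pool.Agent.H7.CP.Fin2

/-!
# MP_e37c09_lc: reflection and capturing by the same measure
-/

open Ordinal Cardinal Order Set
open scoped ZFSet

universe u

namespace Pool.Agent.H7.CP.Fin3

open _root_.HD Pool.Agent.H7.HDA Pool.Agent.H7.CP.RFL Pool.Agent.H7.CP.RZ Pool.Agent.H7.CP.Fin
open Pool.Agent.H7.CP.Fin2 (capE capD)
open Pool.Agent.H3.CP.CD2 (os_congr)
open Pool.Agent.H18.CP.CPR (hh hod_hh pair_mem_hh)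

theorem pon_zero (ν : Ordinal.{u}) : PonHOD ν 0 :=
  ⟨∅, Pool.Agent.H63.HDA.LI.hod_empty, fun _ _ _ h => absurd h (ZFSet.notMem_empty _),
    fun b hb => absurd hb (not_lt_bot)⟩

theorem fullC_of {A : ZFSet.{u}} {ν : Ordinal.{u}} (h : FCf A ν) : FullC ν := by
  intro B hB hBν
  obtain ⟨U, hU, h1, h2, h3⟩ := h B hB hBν
  exact ⟨U, h1, hU.1, h2, h3⟩

theorem fcf_of_frf {A : ZFSet.{u}} {ν : Ordinal.{u}} (h : FRf A ν) : FCf A ν := by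
  intro B hB hBν
  obtain ⟨U, -, h1, h2⟩ := h B 0 hB hBν (pon_zero ν)
  exact ⟨U, h1, h2⟩

theorem frf_of_fcf (hCMA : T_CMA.{u}) (hJOI : T_JOI.{u}) {A : ZFSet.{u}} {ν : Ordinal.{u}}
    (h : FCf A ν) : FRf A ν := by
  intro B θ hB hBν hp
  obtain ⟨f, hf, h1, h2⟩ := hp
  have h3 : ∀ ζ < θ, ∃ U, MGe ν ζ U := fun ζ hζ =>
    All.cmr ν ζ (fullC_of h) ⟨f, hf, h1, fun b hb => h2 b (hb.trans hζ)⟩
  obtain ⟨A', hA', hA'ν, h4⟩ := hCMA ν θ ⟨f, hf, h1, h2⟩ h3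
  obtain ⟨B', hB', hB'ν, h5⟩ := hJOI ν B A' hB hA' hBν hA'ν
  obtain ⟨U, hU, hU'⟩ := h B' hB' hB'ν
  obtain ⟨h6, h7⟩ := h5 U hU.1 hU'
  exact ⟨U, h4 U hU.1 h7, hU, h6⟩

theorem frf_iff (hCMA : T_CMA.{u}) (hJOI : T_JOI.{u}) {A : ZFSet.{u}} {ν : Ordinal.{u}} :
    FRf A ν ↔ FCf A ν := ⟨fcf_of_frf, frf_of_fcf hCMA hJOI⟩

theorem capPt_of {A : ZFSet.{u}} {ν : Ordinal.{u}} (h : FRf A ν) : CapPt ν := by
  refine ⟨fullC_of (fcf_of_frf h), fun θ hθ => ?_⟩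
  obtain ⟨U, hU, -⟩ := h ∅ θ Pool.Agent.H63.HDA.LI.hod_empty
    (fun x hx => absurd hx (ZFSet.notMem_empty _)) hθ
  exact ⟨U, hU⟩

/-- a measure which reflects a relation given by a set -/
theorem rfU_of {A U : ZFSet.{u}} {ν : Ordinal.{u}} (h : RBy (RA A) ν U) : RfU A ν U := by
  obtain ⟨hU, h1⟩ := h
  refine ⟨(All.hmi _ _).2 hU, fun x hx hxν => ?_⟩
  have h2 : ∀ ξ ≤ ν, os ξ {a | a.toZFSet ∈ x} = x ∩ ξ.toZFSet := by
    intro ξ hξ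
    ext z
    rw [mem_os, ZFSet.mem_inter]
    constructor
    · rintro ⟨a, ha, h3, rfl⟩
      exact ⟨h3, toZFSet_mem_toZFSet_iff.2 ha⟩
    · rintro ⟨h3, h4⟩
      obtain ⟨a, ha, rfl⟩ := mem_toZFSet_iff.1 h4
      exact ⟨a, ha, h3, rfl⟩
  have h3 : x ∩ ν.toZFSet = x := by
    ext z
    rw [ZFSet.mem_inter]
    exact ⟨fun h => h.1, fun h => ⟨h, hxν h⟩⟩
  have h4 := h1 {a | a.toZFSet ∈ x} hx.od.ds
  unfold RA at h4
  rw [h2 ν le_rfl, h3] at h4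
  rw [h4]
  have h5 : os ν {ξ | ZFSet.pair ξ.toZFSet (os ξ {a | a.toZFSet ∈ x}) ∈ A} =
      (ν.toZFSet).sep (fun b => ZFSet.pair b (x ∩ b) ∈ A) := by
    ext z
    rw [mem_os, ZFSet.mem_sep]
    constructor
    · rintro ⟨a, ha, h6, rfl⟩
      have h6' : ZFSet.pair a.toZFSet (os a {a | a.toZFSet ∈ x}) ∈ A := h6
      rw [h2 a ha.le] at h6'
      exact ⟨toZFSet_mem_toZFSet_iff.2 ha, h6'⟩
    · rintro ⟨h6, h7⟩
      obtain ⟨a, ha, rfl⟩ := mem_toZFSet_iff.1 h6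
      refine ⟨a, ha, ?_, rfl⟩
      show ZFSet.pair a.toZFSet (os a {a | a.toZFSet ∈ x}) ∈ A
      rw [h2 a ha.le]
      exact h7
  rw [h5]

theorem rby_congr {R R' : Ordinal.{u} → Set Ordinal.{u} → Prop} {ν : Ordinal.{u}}
    {U : ZFSet.{u}} (h : ∀ ξ ≤ ν, ∀ Y : Set Ordinal.{u}, DS Y → (R ξ Y ↔ R' ξ Y))
    (hR : RBy R ν U) : RBy R' ν U := by
  obtain ⟨hU, h1⟩ := hR
  refine ⟨hU, fun Y hY => ?_⟩
  rw [← h ν le_rfl Y hY, h1 Y hY]
  have h5 : os ν {ξ | R ξ Y} = os ν {ξ | R' ξ Y} := os_congr fun ξ hξ => h ξ hξ.le Y hY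
  rw [h5]

theorem hr_of {R : Ordinal.{u} → Ordinal.{u} → Set Ordinal.{u} → Prop} (hR : HRF R)
    (β : Ordinal.{u}) : HR (R β) := by
  refine ⟨hR.ext β, fun Y hY i => ?_⟩
  have h1 := hR.dfn (fun a w => Y a (fun n => w (n + 1)))
    (hY.ren fun n => if n = 0 then 0 else n + 1) 0 (i + 1)
  exact DO.sub (R := fun b w => R b (w i) {a | Y a w}) β h1

theorem fcf_of (hDFR : T_DFR.{u}) (hCPU : T_CPU.{u}) {en : Ordinal.{u} → ZFSet.{u}}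
    (hen : EN en) {A U : ZFSet.{u}} (hA : OD A) {ν : Ordinal.{u}} (h0 : RBy (R2 en A 0) ν U)
    (h1 : RBy (R2 en A 1) ν U) : FCf A ν := by
  by_contra hn
  unfold FCf at hn
  push Not at hn
  obtain ⟨B, hB1, hB2, hB3⟩ := hn
  obtain ⟨c, rfl⟩ := (hen.od B).1 hB1.od
  have hUn : HOD (en (cd en A ν)) ∧ (∀ x ∈ en (cd en A ν), x ⊆ ν.toZFSet) ∧
      ¬ ∃ U, RfU A ν U ∧ CpU (en (cd en A ν)) ν U :=
    csInf_mem (s := {c | HOD (en c) ∧ (∀ x ∈ en c, x ⊆ ν.toZFSet) ∧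
      ¬ ∃ U, RfU A ν U ∧ CpU (en c) ν U}) ⟨c, hB1, hB2, fun ⟨U, h2, h3⟩ => hB3 U h2 h3⟩
  refine hUn.2.2 ⟨U, rfU_of (rby_congr (fun ξ _ Y _ => ?_) h0), ?_⟩
  · unfold R2 RA
    simp
  · refine hCPU _ ν U _ (hr_of (hDFR en hen A hA).1 1) h1.1 hUn.1 hUn.2.1 fun Y hY => ?_
    rw [← h1.2 Y hY]
    unfold R2
    simp

/-- an atom without a bad set -/
theorem good_atom (hRKU : T_RKU.{u}) (hDFR : T_DFR.{u}) (hCMA : T_CMA.{u}) (hJOI : T_JOI.{u})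
    {en : Ordinal.{u} → ZFSet.{u}} (hen : EN en)
    {δ₁ δ₀ : Ordinal.{u}} {M K : Cardinal.{u}} (hM : M.IsRegular) (h1 : δ₁ < M.ord)
    (h0 : M.ord < δ₀) (hK : K.IsRegular) (hK0 : ℵ₀ < K) {c : Ordinal.{u}}
    (hc : Atom en M.ord K.ord c) (hno : ∀ A C, HOD A → Clb K.ord C → ¬ ∀ ν ∈ C, ν < K.ord →
      ν ∈ E en c → Cf M.ord ν → ¬ FRf A ν) : RefT δ₁ δ₀ K := by
  classical
  obtain ⟨s, hs⟩ : ∃ s, s = os K.ord {ν | ν ∈ E en c ∧ Cf M.ord ν} := ⟨_, rfl⟩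
  have hsD : DS {ν : Ordinal.{u} | ν ∈ E en c ∧ Cf M.ord ν} := by
    refine DO.and ?_ ?_
    · have h1 := (All.ea en hen).1
      exact DO.sub (R := fun c w => w 0 ∈ E en c) c (DO.s2 (X := fun a b => a ∈ E en b) h1 1 0)
    · exact DO.sub (R := fun m w => Cf m (w 0)) M.ord (do_Cf All.la 0 1)
  have hms : ∀ ν : Ordinal.{u}, ν.toZFSet ∈ s ↔ ν < K.ord ∧ ν ∈ E en c ∧ Cf M.ord ν := by
    intro ν
    rw [hs, ord_mem_os]
    rfl
  -- the sequences of sets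
  have hA : ∀ A, HOD A → ∃ C, Clb K.ord C ∧ ∀ ν ∈ C, ν.toZFSet ∈ s → FRf A ν := by
    intro A hA
    have hD : DS {ν : Ordinal.{u} | FRf A ν} := by
      have he : {ν : Ordinal.{u} | FRf A ν} = {ν | FCf A ν} := by
        ext ν
        exact frf_iff hCMA hJOI
      rw [he]
      exact (hDFR en hen A hA.od).2
    obtain ⟨x, hx⟩ := (All.ea en hen).2.2.1 _ hD K.ord
    have h2 : Pos M.ord K.ord (E en c ∩ E en x) := by
      by_contra h3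
      unfold Pos at h3
      push Not at h3
      obtain ⟨C, hC, h4⟩ := h3
      refine hno A C hA hC fun ν g1 g2 g3 g4 g5 => h4 ν g2 g1 ⟨g3, ?_⟩ g4
      rw [hx]
      exact ⟨g5, g2⟩
    have h3 : ¬ Pos M.ord K.ord (E en c \ E en x) := fun h3 => hc.ult x ⟨h2, h3⟩
    unfold Pos at h3
    push Not at h3
    obtain ⟨C, hC, h4⟩ := h3
    refine ⟨C, hC, fun ν g1 g2 => ?_⟩
    obtain ⟨g3, g4, g5⟩ := (hms ν).1 g2
    by_contra g6
    refine h4 ν g3 g1 ⟨g4, fun g7 => g6 ?_⟩ g5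
    rw [hx] at g7
    exact g7.1
  have hF : ∀ F : Ordinal.{u} → ZFSet.{u}, (∀ a, HOD (F a)) → ∃ C, Clb K.ord C ∧
      ∀ ν ∈ C, 0 < ν ∧ (ν.toZFSet ∈ s → ∀ a < ν, FRf (F a) ν) := by
    intro F hF
    choose C hC h2 using fun a => hA (F a) (hF a)
    refine ⟨_, Pool.Agent.H33.HD.VD.diag hK hK0 C fun a _ => hC a, fun ν g1 => ⟨g1.1, ?_⟩⟩
    exact fun g2 a ha => h2 a ν (g1.2 a ha) g2
  -- the measure
  have hCM := All.hd en M.ord K c hK hK0 hc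
  have hHM := All.he en hen M.ord K.ord c hCM
  have hNM := (All.hmi _ _).1 hHM
  have hU : ∀ x, x ∈ uz en M.ord K.ord c ↔ HOD x ∧ x ⊆ K.ord.toZFSet ∧ ∃ C, Clb K.ord C ∧
      ∀ ν ∈ C, ν.toZFSet ∈ s → ν.toZFSet ∈ x := by
    intro x
    rw [Pool.Agent.H4.HD.HE.mem_uz]
    constructor
    · rintro ⟨g1, g2, g3⟩
      unfold Pos at g3
      push Not at g3
      obtain ⟨C, hC, g4⟩ := g3
      refine ⟨HOD.of_sub g2 g1, g1, C, hC, fun ν g5 g6 => ?_⟩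
      obtain ⟨g7, g8, g9⟩ := (hms ν).1 g6
      by_contra g10
      exact g4 ν g7 g5 ⟨g8, g10⟩ g9
    · rintro ⟨g1, g2, C, hC, g3⟩
      refine ⟨g2, g1.od, fun g4 => ?_⟩
      obtain ⟨ν, g5, g6, g7, g8⟩ := g4 C hC
      exact g7.2 (g3 ν g6 ((hms ν).2 ⟨g5, g7.1, g8⟩))
  have hcap : os K.ord {ν | CapPt ν} ∈ uz en M.ord K.ord c := by
    rw [hU]
    obtain ⟨C, hC, h2⟩ := hF (fun _ => ∅) fun _ => Pool.Agent.H63.HDA.LI.hod_empty
    refine ⟨hod_os capD _, fun z hz => ?_, C, hC, fun ν g1 g2 => ?_⟩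
    · obtain ⟨a, ha, -, rfl⟩ := mem_os.1 hz
      exact toZFSet_mem_toZFSet_iff.2 ha
    · exact ord_mem_os.2 ⟨((hms ν).1 g2).1, capPt_of ((h2 ν g1).2 g2 0 (h2 ν g1).1)⟩
  refine ⟨M, hM, h1, h0, s, uz en M.ord K.ord c, ?_, ?_, ?_, ?_, ?_, hU, ?_⟩
  · rw [hs]
    exact hod_os hsD _
  · intro z hz
    rw [hs] at hz
    obtain ⟨a, ha, -, rfl⟩ := mem_os.1 hz
    exact toZFSet_mem_toZFSet_iff.2 ha
  · intro ν hν
    exact Cardinal.ord_injective ((hms ν).1 hν).2.2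
  · intro C hC
    obtain ⟨ν, g1, g2, g3, g4⟩ := hc.pos C hC
    exact ⟨ν, g1, g2, (hms ν).2 ⟨g1, g3, g4⟩⟩
  · exact hRKU K.ord _ _ hNM capD hcap fun b hb θ hθ => hb.2 θ hθ
  · intro F hF'
    obtain ⟨C, hC, h2⟩ := hF F hF'
    exact ⟨C, hC, fun ν g1 g2 => (h2 ν g1).2 g2⟩

theorem ref_t (hRBH : T_RBH.{u}) (hAST : T_AST.{u}) (hCVW : T_CVW.{u}) (hRKU : T_RKU.{u})
    (hDFR : T_DFR.{u}) (hCPU : T_CPU.{u}) (hCMA : T_CMA.{u}) (hJOI : T_JOI.{u})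
    {D' D K : Cardinal.{u}} (hD' : GoodN D') (hWD' : GoodW D') (hD : GoodN D) (hWD : GoodW D)
    (hDD : D' < D) (hK : K.IsRegular) (hDK : 2 ^ (succ D) < K) (hfew : Few D.ord (PC K)) :
    RefT D'.ord D.ord K := by
  classical
  have hB := All.bA D hD hWD
  have hB' := All.bA D' hD' hWD'
  have hD0 : ℵ₀ ≤ D := hB.dreg.aleph0_le
  have hDK1 : succ D < K := (Cardinal.cantor _).trans hDK
  have hDK' : D < K := (lt_succ D).trans hDK1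
  have hDKo : D.ord < K.ord := Cardinal.ord_lt_ord.2 hDK'
  have hK0 : ℵ₀ < K := hB.dunc.trans hDK'
  have hKc : K.ord.cof = K := hK.cof_ord
  have hKc0 : ℵ₀ < K.ord.cof := by rw [hKc]; exact hK0
  have hDle : D ≤ K.ord.cof := by rw [hKc]; exact hDK'.le
  have hlim : IsSuccLimit K.ord := Cardinal.isSuccLimit_ord hK0.le
  have hDlim : IsSuccLimit D.ord := Cardinal.isSuccLimit_ord hD0
  have hDpos : 0 < D.ord := hDlim.bot_lt
  obtain ⟨en, hen⟩ := All.en.{u}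
  obtain ⟨t, ht1, ht2, ht3⟩ := All.pr.{u}
  have ht : Prf t := ⟨ht1, ht2, ht3⟩
  obtain ⟨lam, Q, f, hEQ, hcard, hexc⟩ := N.enumK All.qf hB hK hDK' hfew
  obtain ⟨W, hW⟩ := hWD K.ord (by rw [hKc]; exact hDK'.le)
  by_contra hcon
  -- the atoms
  have hst1 : ∀ a : Ordinal.{u}, ∃ (e : Ordinal.{u} → Ordinal.{u}) (C : Set Ordinal.{u}),
      Clb K.ord C ∧ (Ma D a → (∀ i < D.ord, Atom en a K.ord (e i)) ∧
        ∀ ν ∈ C, ν < K.ord → Cf a ν → ∃ i < D.ord, ν ∈ E en (e i)) := by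
    intro a
    by_cases ha : Ma D a
    · obtain ⟨M, rfl, hM, hM0, hMD⟩ := ha
      obtain ⟨e, h1, h2⟩ := All.mat en hen D K M hB hK hDK' hM hMD
      unfold Pos at h2
      push Not at h2
      obtain ⟨C, hC, h3⟩ := h2
      refine ⟨e, C, hC, fun _ => ⟨h1, fun ν hν hνK hcf => ?_⟩⟩
      by_contra h4
      push Not at h4
      exact h3 ν hνK hν h4 hcf
    · exact ⟨id, univ, Lm.clb_univ hK0, fun h => absurd h ha⟩
  choose e C0 hC0 h0 using hst1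
  -- the bad sets
  have hst2 : ∀ a i : Ordinal.{u}, ∃ (A : ZFSet.{u}) (C : Set Ordinal.{u}), HOD A ∧
      Clb K.ord C ∧ (Ma D a → D'.ord < a → i < D.ord → ∀ ν ∈ C, ν < K.ord → ν ∈ E en (e a i) →
        Cf a ν → ¬ FRf A ν) := by
    intro a i
    by_cases ha : Ma D a ∧ D'.ord < a ∧ i < D.ord
    · obtain ⟨hMa, ha1, hi⟩ := ha
      have hat := (h0 a hMa).1 i hi
      obtain ⟨M, rfl, hM, hM0, hMD⟩ := hMa
      by_contra hno
      refine hcon (good_atom hRKU hDFR hCMA hJOI hen hM ha1 (Cardinal.ord_lt_ord.2 hMD) hK hK0 hat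
        fun A C hA hC hBad => hno ⟨A, C, hA, hC, fun _ _ _ => hBad⟩)
    · exact ⟨∅, univ, Pool.Agent.H63.HDA.LI.hod_empty, Lm.clb_univ hK0,
        fun h1 h2 h3 => absurd ⟨h1, h2, h3⟩ ha⟩
  choose A C1 hAH hC1 h1 using hst2
  -- the relations which describe the bad sets
  have hid : DR.{u} fun a b => b = (id : Ordinal.{u} → Ordinal.{u}) a := DO.eq 1 0
  have hst5 : ∀ a i : Ordinal.{u}, HR (AS (R2 en (A a i)) id t 2) := fun a i =>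
    (hAST _ (hDFR en hen _ (hAH a i).od).1 t ht id hid 2).1
  obtain ⟨hHRF, hidx⟩ := hRBH en hen K lam Q f t hK hK0 ht hEQ (All.pk D D K hB hK hDK')
  have hst3 : ∀ a i : Ordinal.{u}, ∃ β < lam, ∀ ν < K.ord, ∀ Y : Set Ordinal.{u}, DS Y →
      (RB en Q t β ν Y ↔ AS (R2 en (A a i)) id t 2 ν Y) := by
    intro a i
    obtain ⟨β, hβ, h2⟩ := hidx (hh (AS (R2 en (A a i)) id t 2) K.ord) (hod_hh (hst5 a i) _)
    refine ⟨β, hβ, fun ν hν Y hY => ?_⟩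
    rw [h2 ν hν Y hY, pair_mem_hh]
    have h3 : AS (R2 en (A a i)) id t 2 ν {b | b.toZFSet ∈ os ν Y} ↔
        AS (R2 en (A a i)) id t 2 ν Y := (hst5 a i).ext ν _ _ fun b hb => by
      show b.toZFSet ∈ os ν Y ↔ b ∈ Y
      rw [ord_mem_os]
      exact ⟨fun h => h.2, fun h => ⟨hb, h⟩⟩
    rw [h3]
    refine ⟨fun h => h.2.2.2, fun h => ⟨hν, hod_os hY ν, fun z hz => ?_, h⟩⟩
    obtain ⟨b, hb, -, rfl⟩ := mem_os.1 hz
    exact toZFSet_mem_toZFSet_iff.2 hb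
  choose β hβ h2 using hst3
  -- the number of the atom which contains `ν`
  have hst4 : ∀ ν : Ordinal.{u}, ∃ i < D.ord, (∃ i < D.ord, ν ∈ E en (e ν.cof.ord i)) →
      ν ∈ E en (e ν.cof.ord i) := by
    intro ν
    by_cases h : ∃ i < D.ord, ν ∈ E en (e ν.cof.ord i)
    · obtain ⟨i, hi, h3⟩ := h
      exact ⟨i, hi, fun _ => h3⟩
    · exact ⟨0, hDpos, fun h' => absurd h' h⟩
  choose I hI h3 using hst4
  obtain ⟨b, hb⟩ : ∃ b : Ordinal.{u} → Ordinal.{u},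
      b = fun ν => if ν.cof < D then β ν.cof.ord (I ν) else β 0 0 := ⟨_, rfl⟩
  have hbval : ∀ ν, ∃ a < D.ord, ∃ i < D.ord, b ν = β a i := by
    intro ν
    rw [hb]
    by_cases h : ν.cof < D
    · exact ⟨_, Cardinal.ord_lt_ord.2 h, _, hI ν, by simp only [h, if_true]⟩
    · exact ⟨0, hDpos, 0, hDpos, by simp only [h, if_false]⟩
  have hbfew : Few K.ord {x | ∃ ν < K.ord, b ν = x} := by
    refine ⟨D.ord, hDKo, fun p => if h : ∃ q : Ordinal.{u} × Ordinal.{u}, p = t q.1 q.2 then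
      β h.choose.1 h.choose.2 else 0, ?_⟩
    rintro x ⟨ν, -, rfl⟩
    obtain ⟨a, ha, i, hi, h4⟩ := hbval ν
    refine ⟨t a i, ht.lt D hD0 a ha i hi, ?_⟩
    have h5 : ∃ q : Ordinal.{u} × Ordinal.{u}, t a i = t q.1 q.2 := ⟨(a, i), rfl⟩
    beta_reduce
    rw [dif_pos h5, h4]
    obtain ⟨h6, h7⟩ := ht.inj _ _ _ _ h5.choose_spec
    rw [← h6, ← h7]
  obtain ⟨z, i0, hi0, hz⟩ := hCVW en hen D K lam W hB.dreg hB.dunc hK hDK' hEQ.lt hW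
    (All.exx D K lam hB.dreg hB.dunc hK hDK' hEQ.lt hcard) b hbfew fun ν _ => by
      obtain ⟨a, -, i, -, h4⟩ := hbval ν
      rw [h4]
      exact hβ a i
  have hcz : DR fun a b => b = af en z a := by
    refine DO.sub z (R := fun z w => w 1 = af en z (w 0)) ?_
    exact DO.s3 (X := fun a z c => c = af en z a) (All.fdd en hen).1 1 0 2
  obtain ⟨hHR, hast⟩ := hAST _ hHRF t ht (af en z) hcz i0
  have hdiag0 := Pool.Agent.H33.HD.VD.diag hK hK0 C0 fun a _ => hC0 a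
  have hdiag1 := Pool.Agent.H33.HD.VD.diag hK hK0 (fun a => {x | 0 < x ∧ ∀ i < x, x ∈ C1 a i})
    fun a _ => Pool.Agent.H33.HD.VD.diag hK hK0 (C1 a) fun i _ => hC1 a i
  have hclub := fun {C : Set Ordinal.{u}} (h : Clb K.ord C) =>
    Pool.Agent.H20.HD9.LX.club_mem hW hlim h
  have hall : {ν : Ordinal.{u} | False} ∈ W := by
    filter_upwards [All.rfl' D K W hD hWD hK hDK hfew hW _ hHR, hz, hclub hdiag0, hclub hdiag1,
      hW.lt, hW.lim, hW.cf, hW.gt D.ord hDKo, hW.gt i0 hi0,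
      cof_gt hB.dreg hB.dunc hK hDK' hW hB'.dreg hDD,
      hclub (All.cb K hK hK0 t (ht.lt K hK0.le)),
      cof_gt hB.dreg hB.dunc hK hDK' hW Cardinal.isRegular_aleph0 hB.dunc]
      with ν g1 g2 g3 g4 g5 g6 g7 g8 g9 g10 g12 g13
    have g5' : ν < K.ord := g5
    have g6' : IsSuccLimit ν := g6
    have g7' : ν.cof < D := g7
    have g8' : D.ord < ν := g8
    have g9' : i0 < ν := g9
    have g10' : D' < ν.cof := g10
    have g13' : ℵ₀ < ν.cof := g13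
    have hMa : Ma D ν.cof.ord := ⟨ν.cof, rfl, Cardinal.isRegular_cof g6', g13', g7'⟩
    have haD : ν.cof.ord < D.ord := Cardinal.ord_lt_ord.2 g7'
    have hνE := h3 ν ((h0 _ hMa).2 ν (g3.2 _ (haD.trans g8')) g5' rfl)
    have g4' := (g4.2 _ (haD.trans g8')).2 (I ν) ((hI ν).trans g8')
    obtain ⟨j, hj, hjb⟩ := g2
    obtain ⟨U, hUU⟩ := g1
    have hRP := hast ν U g9' g12.2 hUU j hj
    have hbν : b ν = β ν.cof.ord (I ν) := by
      rw [hb]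
      simp only [g7', if_true]
    rw [hjb, hbν] at hRP
    have hRP2 : RBy (AS (R2 en (A ν.cof.ord (I ν))) id t 2) ν U :=
      rby_congr (fun ξ hξ Y hY => h2 _ _ ξ (hξ.trans_lt g5') Y hY) hRP
    have h2ν : (2 : Ordinal.{u}) < ν := by
      have h4 : (2 : Ordinal.{u}) < D.ord := by
        have := hDlim.succ_lt (hDlim.succ_lt (hDlim.succ_lt hDpos))
        refine lt_of_le_of_lt ?_ this
        rw [← Ordinal.add_one_eq_succ, ← Ordinal.add_one_eq_succ, ← Ordinal.add_one_eq_succ,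
          zero_add]
        exact (one_add_one_eq_two (R := Ordinal.{u})).symm.le.trans le_self_add
      exact h4.trans g8'
    have hRP3 := (hAST _ (hDFR en hen _ (hAH ν.cof.ord (I ν)).od).1 t ht id hid 2).2 ν U h2ν
      g12.2 hRP2
    have hF : FCf (A ν.cof.ord (I ν)) ν := fcf_of hDFR hCPU hen (hAH _ _).od
      (hRP3 0 two_pos) (hRP3 1 one_lt_two)
    exact h1 _ (I ν) hMa (Cardinal.ord_lt_ord.2 g10') (hI ν) ν g4' g5' hνE rfl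
      (frf_of_fcf hCMA hJOI hF)
  exact absurd (W.nonempty_of_mem hall) (by simp)

end Pool.Agent.H7.CP.Fin3
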