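import Pool.Agent.H7.CP.Fin3

/-!
# MP_e37c09_lc: reflection and capturing by normal measures of HOD. The final theorem
-/

open Ordinal Cardinal Order Set
open scoped ZFSet

universe u

namespace Pool.Agent.H7.CP.Fin4

open _root_.HD Pool.Agent.H7.HDA Pool.Agent.H7.CP.Fin3

theorem refT_mono {δ₁ δ₀ δ₀' : Ordinal.{u}} {K : Cardinal.{u}} (h : δ₀ ≤ δ₀')
    (hR : RefT δ₁ δ₀ K) : RefT δ₁ δ₀' K := by
  obtain ⟨M, h1, h2, h3, h4⟩ := hR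
  exact ⟨M, h1, h2, h3.trans_le h, h4⟩

/-- the theorem without the corollary -/
theorem ext (hRBH : T_RBH.{u}) (hAST : T_AST.{u}) (hCVW : T_CVW.{u}) (hRKU : T_RKU.{u})
    (hDFR : T_DFR.{u}) (hCPU : T_CPU.{u}) (hCMA : T_CMA.{u}) (hJOI : T_JOI.{u})
    (δ : Ordinal.{u}) (hδ : Extendible δ) : CaseA δ ∨ ∀ l < δ, ∃ δ₁ δ₀, l < δ₁ ∧
    δ₁ < δ₀ ∧ δ₀ < δ ∧ ∀ K : Cardinal.{u}, K.IsRegular → δ₀ < K.ord → Few l (PC K) →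
      RefT δ₁ δ₀ K ∧ StM K := by
  by_cases hA : CaseA δ
  · exact Or.inl hA
  refine Or.inr fun l hl => ?_
  obtain ⟨D', h1, h2, h3, h4⟩ := All.gr δ hδ hA l hl
  obtain ⟨D, g1, g2, g3, g4⟩ := All.gr δ hδ hA D'.ord h1
  obtain ⟨η, -, θ, j, hj⟩ := All.xa δ hδ 0
  obtain ⟨E, hE, -, h5, -⟩ := All.xb δ η θ j hj
  have hDD : D' < D := Cardinal.ord_lt_ord.1 g2
  have hD2 : D.ord < ((2 : Cardinal.{u}) ^ (succ D)).ord :=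
    Cardinal.ord_lt_ord.2 ((lt_succ D).trans (Cardinal.cantor _))
  refine ⟨D'.ord, ((2 : Cardinal.{u}) ^ (succ D)).ord, h2, g2.trans hD2, ?_,
    fun K hK hDK hfew => ?_⟩
  · rw [hE] at g1 ⊢
    exact Cardinal.ord_lt_ord.2 (h5.isStrongPrelimit
      (h5.isSuccLimit.succ_lt (Cardinal.ord_lt_ord.1 g1)))
  · have hDK' := Cardinal.ord_lt_ord.1 hDK
    have hfew' : Few D.ord (PC K) := few_le hfew (h2.trans g2).le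
    exact ⟨refT_mono hD2.le (ref_t hRBH hAST hCVW hRKU hDFR hCPU hCMA hJOI h3 h4 g3 g4 hDD hK
      hDK' hfew'), All.nsta D K g3 g4 hK ((Cardinal.cantor _).trans hDK') hfew'⟩

/-- the corollary -/
theorem cor (δ : Ordinal.{u})
    (h : CaseA δ ∨ ∀ l < δ, ∃ δ₁ δ₀, l < δ₁ ∧
      δ₁ < δ₀ ∧ δ₀ < δ ∧ ∀ K : Cardinal.{u}, K.IsRegular → δ₀ < K.ord → Few l (PC K) →
        RefT δ₁ δ₀ K ∧ StM K) (K : Cardinal.{u}) (hK : K.IsRegular) (hδK : δ < K.ord)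
    (hfew : ∃ l < δ, Few l (PC K))
    (hK' : (∀ U, ¬ MGe K.ord (hs K.ord) U) ∨ ∃ C, Clb K.ord C ∧ ∀ ν ∈ C, ν < K.ord →
      ν.cof.ord < δ → ∃ θ, PonHOD ν θ ∧ ∀ U, ¬ MGe ν θ U) : CaseA δ := by
  rcases h with h | h
  · exact h
  exfalso
  obtain ⟨l, hl, hfew⟩ := hfew
  obtain ⟨δ₁, δ₀, h1, h2, h3, h4⟩ := h l hl
  obtain ⟨⟨M, hM, hM1, hM0, s, U, hs, hsK, hsM, hst, hU, hUs, hF⟩, -⟩ :=
    h4 K hK (h3.trans hδK) hfew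
  rcases hK' with h5 | ⟨C, hC, h5⟩
  · exact h5 U hU
  have hK0 : ℵ₀ ≤ K := hK.aleph0_le
  obtain ⟨C', hC', h6⟩ := hF (fun _ => ∅) fun _ => Pool.Agent.H63.HDA.LI.hod_empty
  have hKlim : IsSuccLimit K.ord := Cardinal.isSuccLimit_ord hK0
  have hK1 : ℵ₀ < K := by
    refine lt_of_le_of_lt hM.aleph0_le (Cardinal.ord_lt_ord.1 ((hM0.trans h3).trans hδK))
  have hci := All.ci K.ord (C ∩ {x | 0 < x}) C' (by rw [hK.cof_ord]; exact hK1)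
    (All.ci K.ord C {x | 0 < x} (by rw [hK.cof_ord]; exact hK1) hC
      (Lm.clb_gt hK1 hKlim.bot_lt)) hC'
  obtain ⟨ν, g1, ⟨⟨g2, g3⟩, g4⟩, g5⟩ := hst _ hci
  have hcof : ν.cof.ord < δ := by
    rw [hsM ν g5]
    exact hM0.trans h3
  obtain ⟨θ, g6, g7⟩ := h5 ν g2 g1 hcof
  obtain ⟨U', g8⟩ := (capPt_of (h6 ν g4 g5 0 g3)).2 θ g6
  exact g7 U' g8

end Pool.Agent.H7.CP.Fin4
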