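import Pool.Agent.H7.CP.Targets

/-!
# MP_e37c09_lc, row LCC: the theorem for one atom
-/

open Ordinal Cardinal Order Set
open scoped ZFSet

universe u

namespace Pool.Agent.H7.CP.LCC

open _root_.HD Pool.Agent.H7.HDA

/-- minimality from the two rows -/
theorem hlm (hHLN : T_HLN.{u}) (hHLX : T_HLX.{u}) : T_HLM.{u} := by
  intro en hen K lam Q f t X H hK hK0 hVF ht hEQ hX hH
  obtain ⟨C1, hC1, h1⟩ := hHLN en hen K lam Q f t X H hK hK0 hVF ht hEQ hH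
  obtain ⟨C2, hC2, h2⟩ := hHLX en hen K lam Q f t X H hK hK0 ht hEQ hX hH
  refine ⟨_, All.ci _ _ _ (by rw [hK.cof_ord]; exact hK0) hC1 hC2, fun ν hν hC hNE hco => ?_⟩
  exact ⟨h1 ν hν (hC.imp (fun h => h.1) id) hNE.1 hco,
    h2 ν hν (hC.imp (fun h => h.2) id) hNE hco⟩

theorem X (hCD2 : T_CD2.{u}) (hCD4 : T_CD4.{u}) (hCHR : T_CHR.{u}) (hHCO : T_HCO.{u})
    (hHLM : T_HLM.{u}) (hHPO : T_HPO.{u}) (hHNO : T_HNO.{u}) (hHWN : T_HWN.{u})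
    (hCPW : T_CPW.{u}) : T_LCC.{u} := by
  classical
  intro en hen D K M lam Q f W hD hWD hK hDK hEQ hfew hW hM hM0 hMD c hc
  have hB := All.bA D hD hWD
  have hDK' : D < K := (lt_succ D).trans hDK
  have hK0 : ℵ₀ < K := hB.dunc.trans hDK'
  have hKc : K.ord.cof = K := hK.cof_ord
  have hKc0 : ℵ₀ < K.ord.cof := by rw [hKc]; exact hK0
  have hDle : D ≤ K.ord.cof := by rw [hKc]; exact hDK'.le
  have hlim : IsSuccLimit K.ord := Cardinal.isSuccLimit_ord hK0.le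
  have hVF := All.ac D D K hB hK hDK
  have hSR : T_SR.{u} := Pool.Agent.H48.HD.SR.sr
  obtain ⟨t, ht1, ht2, ht3⟩ := All.pr.{u}
  have ht : Prf t := ⟨ht1, ht2, ht3⟩
  -- the relation
  obtain ⟨H, hHd⟩ : ∃ H, H = Hc en M.ord c (AC en) := ⟨_, rfl⟩
  have hAC := hCD2 en hen
  obtain ⟨hH, hSgD⟩ := hCD4 en hen M c hM _ hAC
  rw [← hHd] at hH
  obtain ⟨X, hXd⟩ : ∃ X : Set Ordinal.{u}, X = {a | a ∈ Sg en M.ord c ∧ RegHOD a} := ⟨_, rfl⟩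
  have hXD : DS X := by
    rw [hXd]
    exact hSgD.and All.hsd.2.1
  have hXR : ∀ ξ ∈ X, RegHOD ξ := fun ξ hξ => by
    rw [hXd] at hξ
    exact hξ.2
  obtain ⟨C1, hC1, h1⟩ := hCHR en hen M K lam Q f c _ hM hM0 (hMD.trans hDK') hK hEQ hc hAC
  rw [← hHd] at h1
  obtain ⟨CR, hCR, hCR2⟩ := reg_club hD hK hDK'
  have hclub := fun {C : Set Ordinal.{u}} (h : Clb K.ord C) =>
    Pool.Agent.H20.HD9.LX.club_mem hW hlim h
  have hSgW : {ν | Pos M.ord ν (E en c)} ∈ W := hSR D M K.ord W hB.dreg hB.dunc hDle hW hM hMD _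
    hc.pos
  have hXW : {ν | ν ∈ X ∧ RegHOD ν ∧ CoH K Q f H ν} ∈ W := by
    filter_upwards [hSgW, hclub hC1, hclub hCR, hW.lt] with ν g1 g2 g3 g4
    have g5 := hCR2 ν g3 g4
    have g6 : ν ∈ Sg en M.ord c := Or.inr g1
    exact ⟨by rw [hXd]; exact ⟨g6, g5⟩, g5, h1 ν g2 g4 g6⟩
  have hnull := hHCO D K lam Q f t X H W hB.dreg hB.dunc hK hDK' hW ht hEQ hfew hXW
  obtain ⟨C2, hC2, h2⟩ := hHLM en hen K lam Q f t X H hK hK0 hVF ht hEQ hXR hH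
  obtain ⟨T, hTd⟩ : ∃ T, T = Th K X Q f t H := ⟨_, rfl⟩
  obtain ⟨g, hgd⟩ : ∃ g, g = gh K X Q f t H := ⟨_, rfl⟩
  rw [← hTd, ← hgd] at h2
  rw [← hTd] at hnull
  have hLMK := h2 K.ord le_rfl (Or.inr rfl) (ne_K hK hK0) fun _ _ => Iff.rfl
  have hNEW := All.nxx D K lam W hB.dreg hB.dunc hK hDK' hW hfew
  have hLMW : {ν | LMh en t X H ν T g} ∈ W := by
    filter_upwards [hXW, hclub hC2, hNEW, hW.lt] with ν g1 g2 g3 g4
    have g4' : ν < K.ord := g4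
    exact h2 ν g4'.le (Or.inl g2) g3 g1.2.2
  -- the family of atoms
  have hD1 : (succ D).IsRegular := Cardinal.isRegular_succ hB.dreg.aleph0_le
  have hPO := hHPO en hen t X H K T g ht hXD hH hK hK0 hLMK
  have hno := hHNO en hen t X H T g D D K W ht hXD hH hB hK hDK hW hLMW
  obtain ⟨I, -, hIf, hI, hcov⟩ := All.cvr en hen (succ D) K.ord _ hPO hD1
    (hB.dunc.trans (lt_succ D)) (by rw [hKc]; exact hDK) hno fun Y hY hPY => by
      refine All.ab en hen (succ D).ord K.ord _ hPO hKc0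
        (by rw [hKc, Cardinal.card_ord]; exact hDK) (fun τ hτ => ?_) hno Y hY hPY
      obtain ⟨β, hβ, h3⟩ := All.pk D D K hB hK hDK' τ (hτ.trans (Cardinal.ord_lt_ord.2 hDK))
      exact ⟨β, by rw [hKc]; exact Cardinal.lt_ord.1 hβ, h3⟩
  obtain ⟨τ, hτ, e, he⟩ := hIf
  have hτK : τ < K.ord := hτ.trans (Cardinal.ord_lt_ord.2 hDK)
  -- the clubs of the measures
  have hex : ∀ i : Ordinal.{u}, ∃ C, Clb K.ord C ∧ (e i ∈ I → ∀ ν ∈ C, ν < K.ord → ℵ₀ < ν.cof →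
      LMh en t X H ν T g → Pg ν T g t (E en (e i)) → NMe ν (wz en ν T g t (e i))) := by
    intro i
    by_cases hi : e i ∈ I
    · obtain ⟨C, hC, h⟩ := hHWN en hen t X H K lam Q f T g (e i) ht hXD hH hK hK0 hVF hEQ hLMK
        (hI _ hi)
      exact ⟨C, hC, fun _ => h⟩
    · exact ⟨univ, Lm.clb_univ hK0, fun h => absurd h hi⟩
  choose C4 hC4 h4 using hex
  have hdiag := Pool.Agent.H33.HD.VD.diag hK hK0 C4 fun a _ => hC4 a
  obtain ⟨C5, hC5, h5⟩ := All.vq K lam Q f hK hK0 hVF hEQ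
  have hci := fun (A B : Set Ordinal.{u}) (hA : Clb K.ord A) (hB : Clb K.ord B) =>
    All.ci K.ord A B hKc0 hA hB
  refine ⟨fun i => {γ | i < τ ∧ e i ∈ I ∧ γ ∈ T ∧ t γ (g γ) ∈ E en (e i)}, ?_,
    _, hci _ _ hC1 (hci _ _ hC2 (hci _ _ hCR (hci _ _ hC5 (hci _ _ hdiag
      (Lm.clb_gt hK0 hτK))))), ?_⟩
  · intro hP
    refine null_union All.va hKc0 hnull hcov (hP.mono fun γ _ hγ _ => ?_)
    by_cases hT : γ ∈ T
    · refine Or.inr ⟨hT, fun d hd hdE => ?_⟩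
      obtain ⟨i, hi, rfl⟩ := he d hd
      exact hγ i (hi.trans hτ) ⟨hi, hd, hT, hdE⟩
    · exact Or.inl hT
  rintro ν ⟨hν1, hν2, hν3, hν4, ⟨-, hν5⟩, hν6⟩ hνK hNE hνc hνM ⟨i, hi, hP⟩ hUn
  have hν0 : ℵ₀ < ν.cof := hNE.1
  have hνlim : IsSuccLimit ν := Ordinal.one_lt_cof_iff.1 (Cardinal.one_lt_aleph0.trans hν0)
  have hSg : ν ∈ Sg en M.ord c := Or.inl ⟨hνc, hνM⟩
  have hco := h1 ν hν1 hνK hSg
  have hLMν := h2 ν hνK.le (Or.inl hν2) hNE hco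
  have hi2 : i < τ ∧ e i ∈ I := by
    obtain ⟨b, -, -, h6, -⟩ := hP univ ⟨fun a ha => ⟨succ a, hνlim.succ_lt ha, lt_succ a, trivial⟩,
      fun _ _ _ _ => trivial⟩
    exact ⟨h6.1, h6.2.1⟩
  have hPg : Pg ν T g t (E en (e i)) := hP.mono fun _ _ h6 _ => h6.2.2
  have hν6' : τ < ν := hν6
  have hNM := h4 i hi2.2 ν (hν5 i (hi2.1.trans hν6')) hνK hν0 hLMν hPg
  refine hUn.2.2 ?_
  have hPM : ∀ Y : Set Ordinal.{u}, ¬ Pos M.ord ν Y := fun Y hY => by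
    have h6 := Pool.Agent.H92.HD.pc M ν Y hM hνlim hY
    have h7 : ν.cof = M := Cardinal.ord_injective hνM
    exact absurd h7 h6.ne'
  rw [hTd, hgd] at hLMν hNM hPg
  refine hCPW en hen K lam Q f t X H ν (e i) _ hK hK0 hEQ hH hνK hν0 (h5 ν hν4 hνK) hco hLMν hNM
    hPg hUn.1 hUn.2.1 fun Y _ => ?_
  rw [hHd]
  constructor
  · intro h6
    exact Or.inl ⟨hνc, hνM, h6⟩
  · rintro (h6 | h6)
    · exact h6.2.2
    · exact absurd h6 (hPM _)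

end Pool.Agent.H7.CP.LCC
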