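import Pool.Agent.H7.CP.RDefs
import Pool.Agent.H7.CP.LCC

/-!
# MP_e37c09_lc, row LCR: the theorem for one atom
-/

open Ordinal Cardinal Order Set
open scoped ZFSet

universe u

namespace Pool.Agent.H7.CP.LCR

open _root_.HD Pool.Agent.H7.HDA Pool.Agent.H90.HDA.WZ

theorem rpw {K : Cardinal.{u}} {Q : Ordinal.{u} → Ordinal.{u} → Prop}
    {f : Ordinal.{u} → Ordinal.{u}} {t : Ordinal.{u} → Ordinal.{u} → Ordinal.{u}}
    {en : Ordinal.{u} → ZFSet.{u}} {X : Set Ordinal.{u}}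
    {H A : Ordinal.{u} → Set Ordinal.{u} → Prop} {ν d : Ordinal.{u}} (hHR : HR H) (hAR : HR A)
    (hcof : ℵ₀ < ν.cof)
    (hrep : ∀ Y : Set Ordinal.{u}, DS Y → ∃ ζ < ν, ∀ a < ν, (Q (f ζ) a ↔ a ∈ Y))
    (hcoh : CoH K Q f H ν) (hLM : LMh en t X H ν (Th K X Q f t H) (gh K X Q f t H))
    (hNM : NMe ν (wz en ν (Th K X Q f t H) (gh K X Q f t H) t d))
    (hpos : Pg ν (Th K X Q f t H) (gh K X Q f t H) t (E en d))
    (hXA : ∀ ξ ∈ X, ∀ Y : Set Ordinal.{u}, (H ξ Y ↔ A ξ Y))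
    (hνA : ∀ Y : Set Ordinal.{u}, (H ν Y ↔ A ν Y)) : RPt A ν := by
  refine ⟨_, hNM, fun Y hY => ?_⟩
  rw [← hνA Y]
  obtain ⟨ζ, hζ, hζY⟩ := hrep Y hY
  obtain ⟨T, hT⟩ : ∃ T, T = Th K X Q f t H := ⟨_, rfl⟩
  obtain ⟨g, hg⟩ : ∃ g, g = gh K X Q f t H := ⟨_, rfl⟩
  have hgood : ∀ γ ∈ T, γ < ν → Gdh K Q f t H γ (g γ) := by
    intro γ hγ _
    rw [hT] at hγ
    rw [hg]
    have h1 : ({ξ | γ < ξ ∧ ξ < K.ord ∧ ξ ∈ X ∧ Gdh K Q f t H γ ξ} : Set Ordinal.{u}).Nonempty := hγ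
    exact (csInf_mem h1).2.2.2
  rw [← hT, ← hg] at hLM hNM hpos ⊢
  have hlt : ∀ γ ∈ T, γ < ν → g γ < ν := fun γ h1 h2 => (hLM.1.ln.lt γ h1 h2).2.1
  have hgX : ∀ γ ∈ T, γ < ν → g γ ∈ X := fun γ h1 h2 => (hLM.1.ln.lt γ h1 h2).2.2
  have hlim : IsSuccLimit ν := hNM.lim
  have hZ : DS {ξ | A ξ Y} :=
    hAR.dfn (fun a _ => a ∈ Y) (hY.s1 (X := fun b => b ∈ Y) 0) 0
  rw [os_mem hlt hZ]
  -- the key equivalence
  have key : ∀ γ ∈ T, γ < ν → ζ < γ → (A (g γ) Y ↔ H ν Y) := by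
    intro γ hγ hγν hζγ
    have h1 : H (g γ) Y ↔ H (g γ) {a | Q (f ζ) a} :=
      hHR.ext _ _ _ fun a ha => (hζY a (ha.trans (hlt γ hγ hγν))).symm
    have h2 : H ν Y ↔ H ν {a | Q (f ζ) a} := hHR.ext _ _ _ fun a ha => (hζY a ha).symm
    rw [← hXA _ (hgX γ hγ hγν), h1, h2, ← (hgood γ hγ hγν).2 ζ hζγ, hcoh ζ hζ]
  constructor
  · intro hH hP
    refine All.vb om ν (succ ζ) hlim (hlim.succ_lt hζ) (hP.mono fun γ hγ h3 _ => ?_)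
    by_contra h4
    have h5 : ζ < γ := lt_of_not_ge fun h6 => h4 (lt_succ_iff.2 h6)
    exact h3.2 ((key γ h3.1.1 hγ h5).2 hH)
  · intro hN
    by_contra hH
    apply hN
    have hp : Pos om ν (Tc en t T g d) := hpos
    have hd := pos_diff All.va hcof hp (All.vb om ν (succ ζ) hlim (hlim.succ_lt hζ))
    refine hd.mono fun γ hγ h3 _ => ⟨h3.1, fun h4 => hH ?_⟩
    have h5 : ζ < γ := lt_of_not_ge fun h6 => h3.2 (lt_succ_iff.2 h6)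
    exact (key γ h3.1.1 hγ h5).1 h4

theorem X (hCD4 : T_CD4.{u}) (hCHR : T_CHR.{u})
    (hHLM : T_HLM.{u}) (hHPO : T_HPO.{u}) (hHNO : T_HNO.{u}) (hHWN : T_HWN.{u}) : T_LCR.{u} := by
  classical
  intro en hen D K M lam Q f W A hD hWD hK hDK hEQ hfew hW hM hM0 hMD hAR c hc
  have hB := All.bA D hD hWD
  have hDK' : D < K := (lt_succ D).trans hDK
  have hK0 : ℵ₀ < K := hB.dunc.trans hDK'
  have hKc : K.ord.cof = K := hK.cof_ord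
  have hKc0 : ℵ₀ < K.ord.cof := by rw [hKc]; exact hK0
  have hDle : D ≤ K.ord.cof := by rw [hKc]; exact hDK'.le
  have hlim : IsSuccLimit K.ord := Cardinal.isSuccLimit_ord hK0.le
  have hVF := All.ac D D K hB hK hDK
  have hSR : T_SR.{u} := Pool.Agent.H48.HD.SR.sr
  obtain ⟨t, ht1, ht2, ht3⟩ := All.pr.{u}
  have ht : Prf t := ⟨ht1, ht2, ht3⟩
  -- the relation
  obtain ⟨H, hHd⟩ : ∃ H, H = Hc en M.ord c A := ⟨_, rfl⟩
  obtain ⟨hH, -⟩ := hCD4 en hen M c hM _ hAR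
  rw [← hHd] at hH
  obtain ⟨X, hXd⟩ : ∃ X : Set Ordinal.{u}, X = {a | (a ∈ E en c ∧ Cf M.ord a) ∧ RegHOD a} :=
    ⟨_, rfl⟩
  have hXD : DS X := by
    rw [hXd]
    refine DO.and (DO.and ?_ ?_) All.hsd.2.1
    · have h1 := (All.ea en hen).1
      exact DO.sub (R := fun c w => w 0 ∈ E en c) c (DO.s2 (X := fun a b => a ∈ E en b) h1 1 0)
    · exact DO.sub (R := fun m w => Cf m (w 0)) M.ord (do_Cf All.la 0 1)
  have hXR : ∀ ξ ∈ X, RegHOD ξ := fun ξ hξ => by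
    rw [hXd] at hξ
    exact hξ.2
  have hPM : ∀ ν : Ordinal.{u}, IsSuccLimit ν → Cf M.ord ν → ∀ Y : Set Ordinal.{u},
      ¬ Pos M.ord ν Y := fun ν hν hνM Y hY => by
    have h6 := Pool.Agent.H92.HD.pc M ν Y hM hν hY
    have h7 : ν.cof = M := Cardinal.ord_injective hνM
    exact absurd h7 h6.ne'
  have hHA : ∀ ν : Ordinal.{u}, IsSuccLimit ν → ν ∈ E en c → Cf M.ord ν →
      ∀ Y : Set Ordinal.{u}, (H ν Y ↔ A ν Y) := by
    intro ν hν hνc hνM Y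
    rw [hHd]
    constructor
    · rintro (h6 | h6)
      · exact h6.2.2
      · exact absurd h6 (hPM ν hν hνM _)
    · intro h6
      exact Or.inl ⟨hνc, hνM, h6⟩
  have hXA : ∀ ξ ∈ X, ∀ Y : Set Ordinal.{u}, (H ξ Y ↔ A ξ Y) := fun ξ hξ => by
    rw [hXd] at hξ
    exact hHA ξ hξ.2.1 hξ.1.1 hξ.1.2
  obtain ⟨C1, hC1, h1⟩ := hCHR en hen M K lam Q f c _ hM hM0 (hMD.trans hDK') hK hEQ hc hAR
  rw [← hHd] at h1
  obtain ⟨CR, hCR, hCR2⟩ := reg_club hD hK hDK'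
  have hclub := fun {C : Set Ordinal.{u}} (h : Clb K.ord C) =>
    Pool.Agent.H20.HD9.LX.club_mem hW hlim h
  have hSgW : {ν | Pos M.ord ν (E en c)} ∈ W := hSR D M K.ord W hB.dreg hB.dunc hDle hW hM hMD _
    hc.pos
  obtain ⟨C2, hC2, h2⟩ := hHLM en hen K lam Q f t X H hK hK0 hVF ht hEQ hXR hH
  obtain ⟨C6, hC6, h6⟩ := All.gdd K lam Q f t hK hK0 ht hEQ
  obtain ⟨T, hTd⟩ : ∃ T, T = Th K X Q f t H := ⟨_, rfl⟩
  obtain ⟨g, hgd⟩ : ∃ g, g = gh K X Q f t H := ⟨_, rfl⟩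
  rw [← hTd, ← hgd] at h2
  have hLMK := h2 K.ord le_rfl (Or.inr rfl) (ne_K hK hK0) fun _ _ => Iff.rfl
  have hNEW := All.nxx D K lam W hB.dreg hB.dunc hK hDK' hW hfew
  have hLMW : {ν | LMh en t X H ν T g} ∈ W := by
    filter_upwards [hSgW, hclub hC1, hclub hC2, hNEW, hW.lt] with ν g1 g2 g3 g4 g5
    have g5' : ν < K.ord := g5
    exact h2 ν g5'.le (Or.inl g3) g4 (h1 ν g2 g5 (Or.inr g1))
  -- the family of atoms
  have hD1 : (succ D).IsRegular := Cardinal.isRegular_succ hB.dreg.aleph0_le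
  have hPO := hHPO en hen t X H K T g ht hXD hH hK hK0 hLMK
  have hno := hHNO en hen t X H T g D D K W ht hXD hH hB hK hDK hW hLMW
  obtain ⟨I, -, hIf, hI, hcov⟩ := All.cvr en hen (succ D) K.ord _ hPO hD1
    (hB.dunc.trans (lt_succ D)) (by rw [hKc]; exact hDK) hno fun Y hY hPY => by
      refine All.ab en hen (succ D).ord K.ord _ hPO hKc0
        (by rw [hKc, Cardinal.card_ord]; exact hDK) (fun τ hτ => ?_) hno Y hY hPY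
      obtain ⟨β, hβ, h3⟩ := All.pk D D K hB hK hDK' τ (hτ.trans (Cardinal.ord_lt_ord.2 hDK))
      exact ⟨β, by rw [hKc]; exact Cardinal.lt_ord.1 hβ, h3⟩
  obtain ⟨τ, hτ, e, he⟩ := hIf
  have hτK : τ < K.ord := hτ.trans (Cardinal.ord_lt_ord.2 hDK)
  -- the clubs of the measures
  have hex : ∀ i : Ordinal.{u}, ∃ C, Clb K.ord C ∧ (e i ∈ I → ∀ ν ∈ C, ν < K.ord → ℵ₀ < ν.cof →
      LMh en t X H ν T g → Pg ν T g t (E en (e i)) → NMe ν (wz en ν T g t (e i))) := by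
    intro i
    by_cases hi : e i ∈ I
    · obtain ⟨C, hC, h⟩ := hHWN en hen t X H K lam Q f T g (e i) ht hXD hH hK hK0 hVF hEQ hLMK
        (hI _ hi)
      exact ⟨C, hC, fun _ => h⟩
    · exact ⟨univ, Lm.clb_univ hK0, fun h => absurd h hi⟩
  choose C4 hC4 h4 using hex
  have hdiag := Pool.Agent.H33.HD.VD.diag hK hK0 C4 fun a _ => hC4 a
  obtain ⟨C5, hC5, h5⟩ := All.vq K lam Q f hK hK0 hVF hEQ
  have hci := fun (A B : Set Ordinal.{u}) (hA : Clb K.ord A) (hB : Clb K.ord B) =>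
    All.ci K.ord A B hKc0 hA hB
  refine ⟨T, fun i => {γ | i < τ ∧ e i ∈ I ∧ γ ∈ T ∧ t γ (g γ) ∈ E en (e i)}, ?_,
    _, hci _ _ hC1 (hci _ _ hC2 (hci _ _ hCR (hci _ _ hC5 (hci _ _ hC6 (hci _ _ hdiag
      (Lm.clb_gt hK0 hτK)))))), ?_⟩
  · intro hP
    refine hcov (hP.mono fun γ _ hγ _ => ⟨hγ.1, fun d hd hdE => ?_⟩)
    obtain ⟨i, hi, rfl⟩ := he d hd
    exact hγ.2 i (hi.trans hτ) ⟨hi, hd, hγ.1, hdE⟩
  rintro ν ⟨hν1, hν2, hν3, hν4, hν7, ⟨-, hν5⟩, hν6⟩ hνK hNE hνc hνM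
  have hν0 : ℵ₀ < ν.cof := hNE.1
  have hνlim : IsSuccLimit ν := Ordinal.one_lt_cof_iff.1 (Cardinal.one_lt_aleph0.trans hν0)
  have hco := h1 ν hν1 hνK (Or.inl ⟨hνc, hνM⟩)
  have hνR := hCR2 ν hν3 hνK
  constructor
  · -- almost all points are in `T`
    intro hP
    refine h6 ν hν7 hνK hNE hνR (hP.mono fun γ hγ hγT _ hG => hγT ?_)
    rw [hTd]
    refine ⟨ν, hγ, hνK, ?_, hG, fun ζ hζ => hco ζ (hζ.trans hγ)⟩
    rw [hXd]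
    exact ⟨⟨hνc, hνM⟩, hνR⟩
  rintro ⟨i, hi, hP⟩
  have hLMν := h2 ν hνK.le (Or.inl hν2) hNE hco
  have hi2 : i < τ ∧ e i ∈ I := by
    obtain ⟨b, -, -, h6, -⟩ := hP univ ⟨fun a ha => ⟨succ a, hνlim.succ_lt ha, lt_succ a, trivial⟩,
      fun _ _ _ _ => trivial⟩
    exact ⟨h6.1, h6.2.1⟩
  have hPg : Pg ν T g t (E en (e i)) := hP.mono fun _ _ h6 _ => h6.2.2
  have hν6' : τ < ν := hν6
  have hNM := h4 i hi2.2 ν (hν5 i (hi2.1.trans hν6')) hνK hν0 hLMν hPg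
  rw [hTd, hgd] at hLMν hNM hPg
  exact rpw hH hAR hν0 (h5 ν hν4 hνK) hco hLMν hNM hPg hXA (hHA ν hνlim hνc hνM)

end Pool.Agent.H7.CP.LCR
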