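import Pool.Agent.H7.CP.Defs

/-!
# MP_e37c09_lc: reflection and capturing by normal measures of HOD. The statement
-/

open Ordinal Cardinal Order Set
open scoped ZFSet

universe u

namespace HD

/-- For `ξ ≤ ν` let `A_ξ` be the set of the subsets `x` of `ξ` in HOD with `(ξ, x) ∈ A`. There is
a normal measure `U` of HOD on `ν` such that the sequence of the `A_ξ`, `ξ < ν`, represents `A_ν`
in the ultrapower of HOD by `U`: a subset `x` of `ν` in HOD is in `A_ν` if and only if `x ∩ ξ` is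
in `A_ξ` for `U`-almost all `ξ`. -/
def RefPt (A : ZFSet.{u}) (ν : Ordinal.{u}) : Prop := ∃ U, HMeas ν U ∧
  ∀ x, HOD x → x ⊆ ν.toZFSet → (ZFSet.pair ν.toZFSet x ∈ A ↔
    (ν.toZFSet).sep (fun b => ZFSet.pair b (x ∩ b) ∈ A) ∈ U)

/-- Each set of subsets of `ν` in HOD is in the ultrapower of HOD by a normal measure of HOD
on `ν`, and if HOD maps the power set of `ν` onto `θ` then `ν` has in HOD a normal measure whose
Mitchell rank is at least `θ`. -/
def CapPt (ν : Ordinal.{u}) : Prop := FullC ν ∧ ∀ θ, PonHOD ν θ → ∃ U, MGe ν θ U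

/-- For each `A` in HOD the set of the `ν < K` with `RefPt A ν`, `CapPt ν` and `δ₁ < cof ν < δ₀` is
stationary in `K`, and there is in HOD a normal measure on `K` which contains the set of the
`ν < K` with `RefPt A ν` and `CapPt ν` and whose Mitchell rank is at least the successor of `K` in
HOD. -/
def RefM (δ₁ δ₀ : Ordinal.{u}) (K : Cardinal.{u}) : Prop := ∀ A, HOD A →
  (∀ C, Clb K.ord C → ∃ ν < K.ord, ν ∈ C ∧ δ₁ < ν.cof.ord ∧ ν.cof.ord < δ₀ ∧
    RefPt A ν ∧ CapPt ν) ∧
  ∃ U, MGe K.ord (hs K.ord) U ∧ os K.ord {ν | RefPt A ν ∧ CapPt ν} ∈ U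

end HD
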