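import Pool.Agent.H7.CP.Defs

/-!
# MP_e37c09_lc: reflection and capturing by normal measures of HOD. The statement (second form)
-/

open Ordinal Cardinal Order Set
open scoped ZFSet

universe u

namespace HD

/-- For `ξ ≤ ν` let `A_ξ` be the set of the subsets `x` of `ξ` in HOD with `(ξ, x) ∈ A`. `U` is a
normal measure of HOD on `ν` such that the sequence of the `A_ξ`, `ξ < ν`, represents `A_ν` in the
ultrapower of HOD by `U`: a subset `x` of `ν` in HOD is in `A_ν` if and only if `x ∩ ξ` is in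
`A_ξ` for `U`-almost all `ξ`. -/
def RfU (A : ZFSet.{u}) (ν : Ordinal.{u}) (U : ZFSet.{u}) : Prop := HMeas ν U ∧
  ∀ x, HOD x → x ⊆ ν.toZFSet → (ZFSet.pair ν.toZFSet x ∈ A ↔
    (ν.toZFSet).sep (fun b => ZFSet.pair b (x ∩ b) ∈ A) ∈ U)

/-- The set `B` (of subsets of `ν`) is in the ultrapower of HOD by `U`: there is `h` in HOD such
that a subset `x` of `ν` in HOD is in `B` if and only if `(b, x ∩ b) ∈ h` for `U`-almost
all `b`. -/
def CpU (B : ZFSet.{u}) (ν : Ordinal.{u}) (U : ZFSet.{u}) : Prop := ∃ h, HOD h ∧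
  ∀ x, HOD x → x ⊆ ν.toZFSet →
    (x ∈ B ↔ (ν.toZFSet).sep (fun b => ZFSet.pair b (x ∩ b) ∈ h) ∈ U)

/-- For each set `B` in HOD of subsets of `ν` and each ordinal `θ` onto which HOD maps the power
set of `ν` there is a normal measure `U` of HOD on `ν` such that the sequence of the `A_ξ`
represents `A_ν` in the ultrapower of HOD by `U`, the set `B` is in this ultrapower, and the
Mitchell rank of `U` is at least `θ`. -/
def FRf (A : ZFSet.{u}) (ν : Ordinal.{u}) : Prop := ∀ (B : ZFSet.{u}) (θ : Ordinal.{u}), HOD B →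
  (∀ x ∈ B, x ⊆ ν.toZFSet) → PonHOD ν θ → ∃ U, MGe ν θ U ∧ RfU A ν U ∧ CpU B ν U

/-- There are a regular `M` with `δ₁ < M < δ₀` and sets `s` and `U` in HOD such that `s` is a
subset of `K` which is stationary in `V`, all elements of `s` have cofinality `M`, the set `U` is
a normal measure of HOD on `K` with Mitchell rank at least the successor of `K` in HOD, the
elements of `U` are the subsets of `K` in HOD which contain `s ∩ C` for a club `C`, and for each
sequence `F` of elements of HOD (in `V`) there is a club `C` such that `FRf (F a) ν` for all `ν`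
in `s ∩ C` and all `a < ν`. -/
def RefT (δ₁ δ₀ : Ordinal.{u}) (K : Cardinal.{u}) : Prop :=
  ∃ M : Cardinal.{u}, M.IsRegular ∧ δ₁ < M.ord ∧ M.ord < δ₀ ∧ ∃ s U : ZFSet.{u},
    HOD s ∧ s ⊆ K.ord.toZFSet ∧ (∀ ν : Ordinal.{u}, ν.toZFSet ∈ s → ν.cof = M) ∧
    (∀ C, Clb K.ord C → ∃ ν < K.ord, ν ∈ C ∧ ν.toZFSet ∈ s) ∧
    MGe K.ord (hs K.ord) U ∧
    (∀ x, x ∈ U ↔ HOD x ∧ x ⊆ K.ord.toZFSet ∧ ∃ C, Clb K.ord C ∧
      ∀ ν ∈ C, ν.toZFSet ∈ s → ν.toZFSet ∈ x) ∧
    ∀ F : Ordinal.{u} → ZFSet.{u}, (∀ a, HOD (F a)) → ∃ C, Clb K.ord C ∧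
      ∀ ν ∈ C, ν.toZFSet ∈ s → ∀ a < ν, FRf (F a) ν

end HD
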