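import Pool.Agent.H7.CP.Defs

/-!
# MP_e37c09_lc: capturing of sets by normal measures of HOD. Targets (board `cap_modules`)
-/

open Ordinal Cardinal Order Set
open scoped ZFSet

universe u

namespace HD

/-! ## Definability -/

/-- CD1. Definability of `Capt` with codes. -/
def T_CD1 : Prop := ∀ en : Ordinal.{u} → ZFSet.{u}, EN en →
  DO fun w => Capt (w 0) (en (w 1))

/-- CD2. The relation `AC` is uniformly definable. -/
def T_CD2 : Prop := ∀ en : Ordinal.{u} → ZFSet.{u}, EN en → HR (AC en)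

/-- CD3. The set of the `ν` at which all sets are captured is definable. -/
def T_CD3 : Prop := DS {ν : Ordinal.{u} | FullC ν}

/-- CD4. The relation `Hc` is uniformly definable, and `Sg` is definable. -/
def T_CD4 : Prop := ∀ en : Ordinal.{u} → ZFSet.{u}, EN en → ∀ (M : Cardinal.{u}) (c : Ordinal.{u}),
  M.IsRegular → ∀ A : Ordinal.{u} → Set Ordinal.{u} → Prop, HR A →
    HR (Hc en M.ord c A) ∧ DS (Sg en M.ord c)

/-! ## Coherence of `Hc` -/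

/-- NRM. Reflection of null sets. -/
def T_NRM : Prop := ∀ (M K : Cardinal.{u}), M.IsRegular → K.IsRegular → M < K → ℵ₀ < K →
  ∀ X : Set Ordinal.{u}, ¬ Pos M.ord K.ord X →
    ∃ C, Clb K.ord C ∧ (∀ ν ∈ C, ν < K.ord → ℵ₀ < ν.cof → ¬ Pos M.ord ν X) ∧
      ∀ ν ∈ C, ν < K.ord → Cf M.ord ν → ν ∉ X

/-- CHR. Coherence at almost all points of `Sg`. -/
def T_CHR : Prop := ∀ en : Ordinal.{u} → ZFSet.{u}, EN en → ∀ (M K : Cardinal.{u})
  (lam : Ordinal.{u}) Q f (c : Ordinal.{u}) (A : Ordinal.{u} → Set Ordinal.{u} → Prop),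
  M.IsRegular → ℵ₀ < M → M < K → K.IsRegular → EQ K lam Q f → Atom en M.ord K.ord c → HR A →
    ∃ C, Clb K.ord C ∧ ∀ ν ∈ C, ν < K.ord → ν ∈ Sg en M.ord c → CoH K Q f (Hc en M.ord c A) ν

/-! ## The class of `(T, g)` -/

/-- HCO. Almost all points of cofinality `ω` are in `Th`. -/
def T_HCO : Prop := ∀ (D K : Cardinal.{u}) (lam : Ordinal.{u}) Q f t (X : Set Ordinal.{u})
  (H : Ordinal.{u} → Set Ordinal.{u} → Prop) (W : Ultrafilter Ordinal.{u}), D.IsRegular → ℵ₀ < D →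
  K.IsRegular → D < K → WN D K.ord W → Prf t → EQ K lam Q f → Few D.ord {τ | Exc K lam τ} →
  {ν | ν ∈ X ∧ RegHOD ν ∧ CoH K Q f H ν} ∈ W → ¬ Pos om K.ord {γ | γ ∉ Th K X Q f t H}

/-- HLM. Minimality of `(Th, gh)`. -/
def T_HLM : Prop := ∀ en : Ordinal.{u} → ZFSet.{u}, EN en → ∀ (K : Cardinal.{u})
  (lam : Ordinal.{u}) Q f t (X : Set Ordinal.{u}) (H : Ordinal.{u} → Set Ordinal.{u} → Prop),
  K.IsRegular → ℵ₀ < K → VF K → Prf t → EQ K lam Q f → (∀ ξ ∈ X, RegHOD ξ) → HR H →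
    ∃ C, Clb K.ord C ∧ ∀ ν ≤ K.ord, (ν ∈ C ∨ ν = K.ord) → NE K lam ν → CoH K Q f H ν →
      LMh en t X H ν (Th K X Q f t H) (gh K X Q f t H)

/-- HLN. `(Th, gh)` is coherent at almost all points. -/
def T_HLN : Prop := ∀ en : Ordinal.{u} → ZFSet.{u}, EN en → ∀ (K : Cardinal.{u})
  (lam : Ordinal.{u}) Q f t (X : Set Ordinal.{u}) (H : Ordinal.{u} → Set Ordinal.{u} → Prop),
  K.IsRegular → ℵ₀ < K → VF K → Prf t → EQ K lam Q f → HR H →
    ∃ C, Clb K.ord C ∧ ∀ ν ≤ K.ord, (ν ∈ C ∨ ν = K.ord) → ℵ₀ < ν.cof → CoH K Q f H ν →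
      LNh en t X H ν (Th K X Q f t H) (gh K X Q f t H)

/-- HLX. Minimality of `(Th, gh)` among the coherent pairs. -/
def T_HLX : Prop := ∀ en : Ordinal.{u} → ZFSet.{u}, EN en → ∀ (K : Cardinal.{u})
  (lam : Ordinal.{u}) Q f t (X : Set Ordinal.{u}) (H : Ordinal.{u} → Set Ordinal.{u} → Prop),
  K.IsRegular → ℵ₀ < K → Prf t → EQ K lam Q f → (∀ ξ ∈ X, RegHOD ξ) → HR H →
    ∃ C, Clb K.ord C ∧ ∀ ν ≤ K.ord, (ν ∈ C ∨ ν = K.ord) → NE K lam ν → CoH K Q f H ν →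
      ∀ (T' : Set Ordinal.{u}) (g' : Ordinal.{u} → Ordinal.{u}), LNh en t X H ν T' g' →
        ¬ Pos om ν {γ | γ ∈ T' ∧ (γ ∉ Th K X Q f t H ∨ g' γ < gh K X Q f t H γ)}

/-- HUQ. Uniqueness. -/
def T_HUQ : Prop := ∀ (en : Ordinal.{u} → ZFSet.{u}) t (X : Set Ordinal.{u})
  (H : Ordinal.{u} → Set Ordinal.{u} → Prop) (ν : Ordinal.{u}) T g T' g',
  ℵ₀ < ν.cof → LMh en t X H ν T g → LMh en t X H ν T' g' →
    ¬ Pos om ν {γ | γ ∈ T ∧ (γ ∉ T' ∨ g γ ≠ g' γ)}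

/-- HLD. Definability. -/
def T_HLD : Prop := ∀ en : Ordinal.{u} → ZFSet.{u}, EN en → ∀ t (X : Set Ordinal.{u})
  (H : Ordinal.{u} → Set Ordinal.{u} → Prop), Prf t → DS X → HR H →
  ∀ Y : Ordinal.{u} → Ordinal.{u} → (ℕ → Ordinal.{u}) → Prop,
  (DO fun w => Y (w 0) (w 1) (fun n => w (n + 2))) → ∀ i : ℕ,
    DO fun w => ∃ (T : Set Ordinal.{u}) (g : Ordinal.{u} → Ordinal.{u}),
      LMh en t X H (w i) T g ∧ Pos om (w i) {γ | γ ∈ T ∧ Y γ (g γ) w}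

/-- HPO. -/
def T_HPO : Prop := ∀ en : Ordinal.{u} → ZFSet.{u}, EN en → ∀ t (X : Set Ordinal.{u})
  (H : Ordinal.{u} → Set Ordinal.{u} → Prop) (K : Cardinal.{u}) T g, Prf t → DS X → HR H →
  K.IsRegular → ℵ₀ < K → LMh en t X H K.ord T g → PO K.ord (Pg K.ord T g t)

/-- HNO. There are no long sequences of disjoint classes. -/
def T_HNO : Prop := ∀ en : Ordinal.{u} → ZFSet.{u}, EN en → ∀ t (X : Set Ordinal.{u})
  (H : Ordinal.{u} → Set Ordinal.{u} → Prop) T g (D G K : Cardinal.{u})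
  (W : Ultrafilter Ordinal.{u}), Prf t → DS X → HR H → BG D G → K.IsRegular → succ G < K →
  WN D K.ord W → {ν | LMh en t X H ν T g} ∈ W → ∀ s : Ordinal.{u} → Ordinal.{u} → Prop, DR s →
  (∀ b i i', s b i → s b i' → i = i') → ¬ ∀ i < (succ G).ord, Pg K.ord T g t {b | s b i}

/-- HWH. The filter is in HOD. -/
def T_HWH : Prop := ∀ en : Ordinal.{u} → ZFSet.{u}, EN en → ∀ t (X : Set Ordinal.{u})
  (H : Ordinal.{u} → Set Ordinal.{u} → Prop) (ν : Ordinal.{u}) T g c, Prf t → DS X → HR H →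
  ℵ₀ < ν.cof → LMh en t X H ν T g → HOD (wz en ν T g t c)

/-- HWN. The measures at almost all `ν`. -/
def T_HWN : Prop := ∀ en : Ordinal.{u} → ZFSet.{u}, EN en → ∀ t (X : Set Ordinal.{u})
  (H : Ordinal.{u} → Set Ordinal.{u} → Prop) (K : Cardinal.{u})
  (lam : Ordinal.{u}) Q f T g c, Prf t → DS X → HR H → K.IsRegular → ℵ₀ < K → VF K →
  EQ K lam Q f → LMh en t X H K.ord T g → AtP en (Pg K.ord T g t) c → ∃ C, Clb K.ord C ∧
    ∀ ν ∈ C, ν < K.ord → ℵ₀ < ν.cof → LMh en t X H ν T g → Pg ν T g t (E en c) →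
      NMe ν (wz en ν T g t c)

/-! ## Capturing -/

/-- CPR. Capturing by a measure and a uniformly definable relation. -/
def T_CPR : Prop := ∀ (H : Ordinal.{u} → Set Ordinal.{u} → Prop) (ν : Ordinal.{u})
  (U A : ZFSet.{u}), HR H → NMe ν U → HOD A → (∀ x ∈ A, x ⊆ ν.toZFSet) →
  (∀ Y : Set Ordinal.{u}, DS Y → (os ν Y ∈ A ↔ os ν {ξ | H ξ Y} ∈ U)) → Capt ν A

/-- CPW. Capturing by the measure given by `(Th, gh)`. -/
def T_CPW : Prop := ∀ en : Ordinal.{u} → ZFSet.{u}, EN en → ∀ (K : Cardinal.{u})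
  (lam : Ordinal.{u}) Q f t (X : Set Ordinal.{u}) (H : Ordinal.{u} → Set Ordinal.{u} → Prop)
  (ν d : Ordinal.{u}) (A : ZFSet.{u}), K.IsRegular → ℵ₀ < K → EQ K lam Q f → HR H →
  ν < K.ord → ℵ₀ < ν.cof →
  (∀ Y : Set Ordinal.{u}, DS Y → ∃ ζ < ν, ∀ a < ν, (Q (f ζ) a ↔ a ∈ Y)) → CoH K Q f H ν →
  LMh en t X H ν (Th K X Q f t H) (gh K X Q f t H) →
  NMe ν (wz en ν (Th K X Q f t H) (gh K X Q f t H) t d) →
  Pg ν (Th K X Q f t H) (gh K X Q f t H) t (E en d) →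
  HOD A → (∀ x ∈ A, x ⊆ ν.toZFSet) → (∀ Y : Set Ordinal.{u}, DS Y → (os ν Y ∈ A ↔ H ν Y)) →
    Capt ν A

/-- LCC. The theorem for one atom. -/
def T_LCC : Prop := ∀ en : Ordinal.{u} → ZFSet.{u}, EN en → ∀ (D K M : Cardinal.{u})
  (lam : Ordinal.{u}) Q f (W : Ultrafilter Ordinal.{u}), GoodN D → GoodW D → K.IsRegular →
  succ D < K → EQ K lam Q f → Few D.ord {τ | Exc K lam τ} → WN D K.ord W → M.IsRegular →
  ℵ₀ < M → M < D → ∀ c, Atom en M.ord K.ord c → ∃ S : Ordinal.{u} → Set Ordinal.{u},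
    ¬ Pos om K.ord {γ | ∀ i < (succ D).ord, γ ∉ S i} ∧
    ∃ C, Clb K.ord C ∧ ∀ ν ∈ C, ν < K.ord → NE K lam ν → ν ∈ E en c → Cf M.ord ν →
      (∃ i < (succ D).ord, Pos om ν (S i)) → ¬ UnC en ν (cc en ν)

/-- PGN. The pigeonhole principle. -/
def T_PGN : Prop := ∀ (B K : Cardinal.{u}) (R : Set Ordinal.{u})
  (S : Ordinal.{u} → Set Ordinal.{u}), ℵ₀ ≤ B → K.IsRegular → 2 ^ B < K → Pos om K.ord R →
  ∃ R' ⊆ R, Pos om K.ord R' ∧
    ∀ j < B.ord, (∀ γ ∈ R', γ ∈ S j) ∨ (∀ γ ∈ R', γ ∉ S j)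

/-- MAT. The family of atoms for points of cofinality `M`. -/
def T_MAT : Prop := ∀ en : Ordinal.{u} → ZFSet.{u}, EN en → ∀ D K M : Cardinal.{u},
  BG D D → K.IsRegular → D < K → M.IsRegular → M < D → ∃ e : Ordinal.{u} → Ordinal.{u},
    (∀ i < D.ord, Atom en M.ord K.ord (e i)) ∧ ¬ Pos M.ord K.ord {b | ∀ i < D.ord, b ∉ E en (e i)}

/-- CAP. Almost all points are captured. -/
def T_CAP : Prop := ∀ (D K : Cardinal.{u}) (W : Ultrafilter Ordinal.{u}), GoodN D → GoodW D →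
  K.IsRegular → 2 ^ (succ D) < K → Few D.ord (PC K) → WN D K.ord W → {ν | FullC ν} ∈ W

/-! ## The Mitchell order -/

/-- LOS. A normal measure which is the class of a function is the class of a function whose values
are normal measures. -/
def T_LSM : Prop := ∀ en : Ordinal.{u} → ZFSet.{u}, EN en → ∀ (κ : Ordinal.{u}) (U W : ZFSet.{u})
  (c : Ordinal.{u} → Ordinal.{u}), (DR fun a b => b = c a) → NMe κ U → NMe κ W →
  (∀ b, HOD (en (c b)) ∧ ∀ x ∈ en (c b), x ⊆ b.toZFSet) →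
  (∀ X : Set Ordinal.{u}, DS X → (os κ X ∈ W ↔ os κ {b | os b X ∈ en (c b)} ∈ U)) →
    os κ {b | NMe b (en (c b))} ∈ U ∧ MLt κ W U

/-- CMR. The Mitchell order of a captured point. -/
def T_CMR : Prop := ∀ ν θ : Ordinal.{u}, FullC ν → PonHOD ν θ → ∃ U, MGe ν θ U

end HD
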