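import Pool.Agent.H7.CP.Fin
import Pool.Agent.H60.HD9.IX

/-!
# MP_e37c09_lc: reflection by normal measures of HOD. Second list (board `cap2_modules`)
-/

open Ordinal Cardinal Order Set
open scoped ZFSet

universe u

namespace HD

/-- A family of relations `R β ν X` which depend only on `X ∩ ν` and are uniformly definable. -/
structure HRF (R : Ordinal.{u} → Ordinal.{u} → Set Ordinal.{u} → Prop) : Prop where
  ext : ∀ (β ν : Ordinal.{u}) (X Y : Set Ordinal.{u}), (∀ a < ν, (a ∈ X ↔ a ∈ Y)) →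
    (R β ν X ↔ R β ν Y)
  dfn : ∀ Y : Ordinal.{u} → (ℕ → Ordinal.{u}) → Prop,
    (DO fun w => Y (w 0) (fun n => w (n + 1))) → ∀ k i : ℕ, DO fun w => R (w k) (w i) {a | Y a w}

/-- the relation with index `β` -/
def RB (en : Ordinal.{u} → ZFSet.{u}) (Q : Ordinal.{u} → Ordinal.{u} → Prop)
    (t : Ordinal.{u} → Ordinal.{u} → Ordinal.{u}) (β ν : Ordinal.{u}) (Y : Set Ordinal.{u}) :
    Prop := Q β (t ν (ix en ν (os ν Y)))

/-- the relation which codes the relations `R (c j)`, `j < i` -/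
def AS (R : Ordinal.{u} → Ordinal.{u} → Set Ordinal.{u} → Prop) (c : Ordinal.{u} → Ordinal.{u})
    (t : Ordinal.{u} → Ordinal.{u} → Ordinal.{u}) (i ν : Ordinal.{u}) (Y : Set Ordinal.{u}) :
    Prop := ∃ j < i, (t 0 j < ν ∧ t 0 j ∈ Y) ∧ R (c j) ν {a | t 1 a < ν ∧ t 1 a ∈ Y}

/-- RBH. Each set in HOD has an index. -/
def T_RBH : Prop := ∀ en : Ordinal.{u} → ZFSet.{u}, EN en → ∀ (K : Cardinal.{u})
  (lam : Ordinal.{u}) Q f t, K.IsRegular → ℵ₀ < K → Prf t → EQ K lam Q f →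
  (∀ τ < K.ord, ∃ β < K.ord, PowHOD τ β) → HRF (RB en Q t) ∧
    ∀ A, HOD A → ∃ β < lam, ∀ ν < K.ord, ∀ Y : Set Ordinal.{u}, DS Y →
      (RB en Q t β ν Y ↔ ZFSet.pair ν.toZFSet (os ν Y) ∈ A)

/-- `U` reflects the relation `A` at `ν` -/
def RBy (A : Ordinal.{u} → Set Ordinal.{u} → Prop) (ν : Ordinal.{u}) (U : ZFSet.{u}) : Prop :=
  NMe ν U ∧ ∀ Y : Set Ordinal.{u}, DS Y → (A ν Y ↔ os ν {ξ | A ξ Y} ∈ U)

/-- AST. A measure which reflects the relation `AS` reflects the relations `R (c j)`. -/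
def T_AST : Prop := ∀ R : Ordinal.{u} → Ordinal.{u} → Set Ordinal.{u} → Prop, HRF R → ∀ t, Prf t →
  ∀ c : Ordinal.{u} → Ordinal.{u}, (DR fun a b => b = c a) → ∀ i, HR (AS R c t i) ∧
    ∀ ν U, i < ν → (∀ a < ν, ∀ b < ν, t a b < ν) → RBy (AS R c t i) ν U →
      ∀ j < i, RBy (R (c j)) ν U

/-- CVW. Covering of a function with few values at almost all points. -/
def T_CVW : Prop := ∀ en : Ordinal.{u} → ZFSet.{u}, EN en → ∀ (D K : Cardinal.{u})
  (lam : Ordinal.{u}) (W : Ultrafilter Ordinal.{u}), D.IsRegular → ℵ₀ < D → K.IsRegular → D < K →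
  lam < (succ K).ord → WN D K.ord W → (∀ τ, Exc K lam τ → τ.cof < D) →
  ∀ b : Ordinal.{u} → Ordinal.{u}, Few K.ord {x | ∃ ν < K.ord, b ν = x} →
  (∀ ν < K.ord, b ν < lam) → ∃ z, ∃ i < K.ord, {ν | ∃ j < i, af en z j = b ν} ∈ W

/-- RKU. The Mitchell rank of a measure which contains a set of points with many measures. -/
def T_RKU : Prop := ∀ (κ : Ordinal.{u}) (U : ZFSet.{u}) (X : Set Ordinal.{u}), NMe κ U → DS X →
  os κ X ∈ U → (∀ b ∈ X, ∀ θ, PonHOD b θ → ∃ U', MGe b θ U') → MGe κ (hs κ) U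

/-! ## The statement -/

/-- There are a regular `M` with `δ₁ < M < δ₀` and sets `s` and `U` in HOD such that `s` is a
subset of `K` which is stationary in `V`, all elements of `s` have cofinality `M`, the set `U` is
a normal measure of HOD on `K` with Mitchell rank at least the successor of `K` in HOD, the
elements of `U` are the subsets of `K` in HOD which contain `s ∩ C` for a club `C`, and for each
sequence `F` of elements of HOD (in `V`) there is a club `C` such that `CapPt ν` and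
`RefPt (F a) ν`, `a < ν`, for all `ν` in `s ∩ C`. -/
def RefS (δ₁ δ₀ : Ordinal.{u}) (K : Cardinal.{u}) : Prop :=
  ∃ M : Cardinal.{u}, M.IsRegular ∧ δ₁ < M.ord ∧ M.ord < δ₀ ∧ ∃ s U : ZFSet.{u},
    HOD s ∧ s ⊆ K.ord.toZFSet ∧ (∀ ν : Ordinal.{u}, ν.toZFSet ∈ s → ν.cof = M) ∧
    (∀ C, Clb K.ord C → ∃ ν < K.ord, ν ∈ C ∧ ν.toZFSet ∈ s) ∧
    MGe K.ord (hs K.ord) U ∧
    (∀ x, x ∈ U ↔ HOD x ∧ x ⊆ K.ord.toZFSet ∧ ∃ C, Clb K.ord C ∧
      ∀ ν ∈ C, ν.toZFSet ∈ s → ν.toZFSet ∈ x) ∧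
    ∀ F : Ordinal.{u} → ZFSet.{u}, (∀ a, HOD (F a)) → ∃ C, Clb K.ord C ∧
      ∀ ν ∈ C, ν.toZFSet ∈ s → CapPt ν ∧ ∀ a < ν, RefPt (F a) ν

end HD
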