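import Pool.Agent.H7.CP.Targets2
import Pool.Agent.H7.CP.Stmt2

/-!
# MP_e37c09_lc: reflection and capturing by the same measure. Third list (board `cap2_modules`)
-/

open Ordinal Cardinal Order Set
open scoped ZFSet

universe u

namespace HD

/-- each set of subsets of `ν` in HOD is captured by a measure which reflects `A` -/
def FCf (A : ZFSet.{u}) (ν : Ordinal.{u}) : Prop := ∀ B : ZFSet.{u}, HOD B →
  (∀ x ∈ B, x ⊆ ν.toZFSet) → ∃ U, RfU A ν U ∧ CpU B ν U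

/-- the least code of a set of subsets of `ν` in HOD which is not captured by a measure which
reflects `A` -/
noncomputable def cd (en : Ordinal.{u} → ZFSet.{u}) (A : ZFSet.{u}) (ν : Ordinal.{u}) :
    Ordinal.{u} :=
  sInf {c | HOD (en c) ∧ (∀ x ∈ en c, x ⊆ ν.toZFSet) ∧ ¬ ∃ U, RfU A ν U ∧ CpU (en c) ν U}

/-- the family which consists of `A` and of the first set which is not captured -/
def R2 (en : Ordinal.{u} → ZFSet.{u}) (A : ZFSet.{u}) (β ν : Ordinal.{u})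
    (Y : Set Ordinal.{u}) : Prop :=
  (β = 0 ∧ ZFSet.pair ν.toZFSet (os ν Y) ∈ A) ∨ (β ≠ 0 ∧ os ν Y ∈ en (cd en A ν))

/-- DFR. Definability. -/
def T_DFR : Prop := ∀ en : Ordinal.{u} → ZFSet.{u}, EN en → ∀ A, OD A →
  HRF (R2 en A) ∧ DS {ν : Ordinal.{u} | FCf A ν}

/-- CPU. Capturing by a measure and a uniformly definable relation. -/
def T_CPU : Prop := ∀ (H : Ordinal.{u} → Set Ordinal.{u} → Prop) (ν : Ordinal.{u})
  (U B : ZFSet.{u}), HR H → NMe ν U → HOD B → (∀ x ∈ B, x ⊆ ν.toZFSet) →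
  (∀ Y : Set Ordinal.{u}, DS Y → (os ν Y ∈ B ↔ os ν {ξ | H ξ Y} ∈ U)) → CpU B ν U

/-- CMA. A set such that the measures which capture it have a large Mitchell rank. -/
def T_CMA : Prop := ∀ ν θ : Ordinal.{u}, PonHOD ν θ → (∀ ζ < θ, ∃ U, MGe ν ζ U) →
  ∃ A, HOD A ∧ (∀ x ∈ A, x ⊆ ν.toZFSet) ∧ ∀ U, HMeas ν U → CpU A ν U → MGe ν θ U

/-- JOI. Capturing of two sets. -/
def T_JOI : Prop := ∀ (ν : Ordinal.{u}) (B₀ B₁ : ZFSet.{u}), HOD B₀ → HOD B₁ →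
  (∀ x ∈ B₀, x ⊆ ν.toZFSet) → (∀ x ∈ B₁, x ⊆ ν.toZFSet) →
  ∃ B, HOD B ∧ (∀ x ∈ B, x ⊆ ν.toZFSet) ∧ ∀ U, HMeas ν U → CpU B ν U →
    CpU B₀ ν U ∧ CpU B₁ ν U

end HD
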